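import Pool.Agent.H46QF.Gen
import Pool.Agent.R365.QP.Up

/-!
Fields of degree `n` with too many generators of small height and conductor.
-/

set_option autoImplicit false

namespace Pool.Agent.H46QF

open NumberField IsDedekindDomain Finset Pool.Agent.H691R3 Pool.Agent.W223.AK
open Pool.Agent.W222.UABC

theorem cond_le_gen {K : Type} [Field K] [NumberField K] {x : K} (h0 : x ≠ 0) (h1 : x ≠ 1) :
    W222.UABC.conductor ![x, 1 - x, -1] ≤ 3 * W222.UABC.height ![x, 1 - x, -1] + 3 * Real.log 2 := by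
  obtain ⟨hPt, hh, P, hP, hR⟩ := Pool.Agent.R365.QP.point_of h0 h1
  have hn : (0 : ℝ) < (Module.finrank ℚ K : ℝ) := by exact_mod_cast Module.finrank_pos
  have hl : ∀ l, rl (P l) ≤ ht (x / (1 - x)) + (Module.finrank ℚ K : ℝ) * Real.log 2 := by
    intro l
    have h1 := rl_le_len (P l)
    have h2 := len_le hPt hP l
    rw [cS_empty] at h2
    linarith
  have k0 := hl 0
  have k1 := hl 1
  have k2 := hl 2
  have h3 : (Module.finrank ℚ K : ℝ) * W222.UABC.conductor ![x, 1 - x, -1] ≤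
      (Module.finrank ℚ K : ℝ) * (3 * W222.UABC.height ![x, 1 - x, -1] + 3 * Real.log 2) := by
    rw [hR]
    linarith
  exact le_of_mul_le_mul_left h3 hn

/-- the same points in the algebraic closure -/
def GenA (K : IntermediateField ℚ (AlgebraicClosure ℚ)) (T W : ℝ) : Set (AlgebraicClosure ℚ) :=
  {x | ∃ (_ : NumberField K) (t : K), (t : AlgebraicClosure ℚ) = x ∧ t ∈ GenK K T W}

lemma genA_eq (K : IntermediateField ℚ (AlgebraicClosure ℚ)) [hn : NumberField K] (T W : ℝ) :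
    GenA K T W = (fun t : K => (t : AlgebraicClosure ℚ)) '' GenK K T W := by
  ext x
  constructor
  · rintro ⟨_, t, h1, h2⟩
    exact ⟨t, h2, h1⟩
  · rintro ⟨t, h2, h1⟩
    exact ⟨hn, t, h1, h2⟩

lemma genA_ncard (K : IntermediateField ℚ (AlgebraicClosure ℚ)) [hn : NumberField K] (T W : ℝ) :
    (GenA K T W).ncard = (GenK K T W).ncard := by
  rw [genA_eq]
  exact Set.ncard_image_of_injective _ Subtype.val_injective

lemma genA_inGen {n : ℕ} {K : IntermediateField ℚ (AlgebraicClosure ℚ)} (hK : Module.finrank ℚ K = n) {T W : ℝ}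
    {x : AlgebraicClosure ℚ} (hx : x ∈ GenA K T W) : InGen n T W x := by
  obtain ⟨hn, t, h1, h2⟩ := hx
  exact ⟨K, hn, t, h1, hK, h2⟩

lemma inGen_mono {n : ℕ} {T T' W W' : ℝ} (hT : T ≤ T') (hW : W ≤ W') {x : AlgebraicClosure ℚ} (hx : InGen n T W x) :
    InGen n T' W' x := by
  obtain ⟨K, hn, t, h1, h2, h3, h4, h5⟩ := hx
  exact ⟨K, hn, t, h1, h2, h3, h4.trans hT, h5.trans hW⟩

lemma inGen_finite (n : ℕ) (hn : 2 ≤ n) (T W : ℝ) : {x | InGen n T W x}.Finite := by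
  obtain ⟨C, hC, h⟩ := gen_card n hn (θ := 1) (by norm_num)
  refine (ncard_le_of {x | InGen n T W x}
    (Real.exp (n * (n - 2) * max T 0 + n * W + C * (max T 0 + 1) ^ (1 : ℝ))) fun E hE => ?_).1
  exact h (max T 0) W E (le_max_right _ _) fun x hx => inGen_mono (le_max_left _ _) le_rfl (hE (Finset.mem_coe.2 hx))

lemma genA_finite (n : ℕ) (hn : 2 ≤ n) (K : IntermediateField ℚ (AlgebraicClosure ℚ)) (hK : Module.finrank ℚ K = n)
    (T W : ℝ) : (GenA K T W).Finite :=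
  (inGen_finite n hn T W).subset fun _ hx => genA_inGen hK hx

lemma genK_finite (n : ℕ) (hn : 2 ≤ n) (K : IntermediateField ℚ (AlgebraicClosure ℚ)) [hnf : NumberField K]
    (hK : Module.finrank ℚ K = n) (T W : ℝ) : (GenK K T W).Finite := by
  have h := genA_finite n hn K hK T W
  rw [genA_eq] at h
  exact Set.Finite.of_finite_image h Subtype.val_injective.injOn

/-- a field is determined by a generator -/
lemma field_eq {K : IntermediateField ℚ (AlgebraicClosure ℚ)} {t : K} (h : IntermediateField.adjoin ℚ {t} = ⊤) :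
    IntermediateField.adjoin ℚ {(t : AlgebraicClosure ℚ)} = K := by
  have key : ∀ (i : Algebra ℚ K), @IntermediateField.adjoin ℚ _ K _ i {t} = ⊤ →
      IntermediateField.adjoin ℚ {(t : AlgebraicClosure ℚ)} = K := by
    intro i hi
    have hi' : i = K.algebra' := Subsingleton.elim _ _
    subst hi'
    rw [← IntermediateField.lift_adjoin_simple, hi, IntermediateField.lift_top]
  exact key _ h

/-- few fields have many points -/
theorem fields_card2 (n : ℕ) (hn : 2 ≤ n) {θ : ℝ} (hθ : 1 / 2 < θ) : ∃ C : ℝ, 0 < C ∧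
    ∀ (T W m : ℝ) (B : Finset (IntermediateField ℚ (AlgebraicClosure ℚ))), 0 ≤ T →
      (∀ K ∈ B, Module.finrank ℚ K = n ∧ m ≤ ((GenA K T W).ncard : ℝ)) →
      m * B.card ≤ Real.exp (n * (n - 2) * T + n * W + C * (T + 1) ^ θ) := by
  classical
  obtain ⟨C, hC, h⟩ := gen_card n hn hθ
  refine ⟨C, hC, fun T W m B hT hB => ?_⟩
  have hfin : ∀ K : IntermediateField ℚ (AlgebraicClosure ℚ), ∃ F : Finset (AlgebraicClosure ℚ),
      K ∈ B → ((F : Set (AlgebraicClosure ℚ)) = GenA K T W) := by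
    intro K
    by_cases hK : K ∈ B
    · exact ⟨(genA_finite n hn K (hB K hK).1 T W).toFinset, fun _ => by simp⟩
    · exact ⟨∅, fun h => absurd h hK⟩
  choose F hF using hfin
  have hdisj : (B : Set (IntermediateField ℚ (AlgebraicClosure ℚ))).PairwiseDisjoint F := by
    intro K hK L hL hKL
    rw [Function.onFun, Finset.disjoint_left]
    intro x hx hx'
    apply hKL
    have h1 : x ∈ GenA K T W := by rw [← hF K hK]; exact hx
    have h2 : x ∈ GenA L T W := by rw [← hF L hL]; exact hx'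
    obtain ⟨_, t, ht1, ht2⟩ := h1
    obtain ⟨_, u, hu1, hu2⟩ := h2
    rw [← field_eq ht2.1, ← field_eq hu2.1, ht1, hu1]
  have h1 : (B.biUnion F).card = ∑ K ∈ B, (F K).card := card_biUnion hdisj
  have h2 : m * B.card ≤ ((B.biUnion F).card : ℝ) := by
    rw [h1, mul_comm, ← nsmul_eq_mul, ← sum_const]
    push_cast
    apply sum_le_sum
    intro K hK
    refine (hB K hK).2.trans (le_of_eq ?_)
    rw [← hF K hK, Set.ncard_coe_finset]
  refine h2.trans (h T W _ hT fun x hx => ?_)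
  rw [mem_biUnion] at hx
  obtain ⟨K, hK, hxK⟩ := hx
  apply genA_inGen (hB K hK).1
  rw [← hF K hK]
  exact hxK

/-- the number of the generators of `K` of small height and conductor is small -/
def Few2 (n : ℕ) (ε : ℝ) (K : Type) [Field K] [NumberField K] : Prop :=
  ∀ T W : ℝ, 0 ≤ T → T ≤ rootDisc K ^ (2 - ε) → 0 ≤ W →
    ((GenK K T W).ncard : ℝ) ≤ Real.exp (n * (n - 2) * T + n * W - (n - ε) * rootDisc K)

lemma rootDisc_nn (K : Type) [Field K] [NumberField K] : 0 ≤ rootDisc K :=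
  div_nonneg (Real.log_nonneg one_le_disc) (Nat.cast_nonneg _)

lemma growth2 {A b γ : ℝ} (hA : 0 ≤ A) (hb : 0 < b) (hγ0 : 0 < γ) (hγ : γ < 1) :
    ∃ K0 : ℝ, ∀ y : ℝ, 0 ≤ y → A * y ^ γ ≤ b * y + K0 := by
  obtain ⟨y0, hy0⟩ : ∃ y0 : ℝ, y0 = ((A + 1) / b) ^ (1 / (1 - γ)) := ⟨_, rfl⟩
  have hpos : 0 < (A + 1) / b := by positivity
  have hy0p : 0 < y0 := by rw [hy0]; positivity
  have h1 : y0 ^ (γ - 1) = b / (A + 1) := by
    rw [hy0, ← Real.rpow_mul hpos.le]
    have : 1 / (1 - γ) * (γ - 1) = -1 := by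
      have : (1 : ℝ) - γ ≠ 0 := by linarith
      field_simp
      ring
    rw [this, Real.rpow_neg_one, inv_div]
  refine ⟨A * y0 ^ γ, fun y hy => ?_⟩
  rcases le_or_gt y0 y with h | h
  · have hyp : 0 < y := by linarith
    have h2 : y ^ γ = y * y ^ (γ - 1) := by
      nth_rewrite 2 [← Real.rpow_one y]
      rw [← Real.rpow_add hyp]
      congr 1
      ring
    have h3 : y ^ (γ - 1) ≤ y0 ^ (γ - 1) := Real.rpow_le_rpow_of_nonpos hy0p h (by linarith)
    have h4 : A * y ^ γ ≤ b * y := by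
      rw [h2]
      calc A * (y * y ^ (γ - 1)) ≤ A * (y * (b / (A + 1))) := by
            rw [h1] at h3
            gcongr
        _ = b * y * (A / (A + 1)) := by ring
        _ ≤ b * y * 1 := by
            apply mul_le_mul_of_nonneg_left _ (by positivity)
            rw [div_le_one (by linarith)]
            linarith
        _ = b * y := mul_one _
    have h5 : 0 ≤ A * y0 ^ γ := by positivity
    linarith
  · have h2 : A * y ^ γ ≤ A * y0 ^ γ := by
      apply mul_le_mul_of_nonneg_left _ hA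
      exact Real.rpow_le_rpow hy h.le hγ0.le
    have h3 : 0 ≤ b * y := by positivity
    linarith

theorem bad_card2 (n : ℕ) (hn : 2 ≤ n) {ε : ℝ} (hε : 0 < ε) (hε1 : ε ≤ 1) : ∃ C : ℝ, 0 < C ∧ ∀ X : ℝ, 1 ≤ X →
    ∀ B : Finset (IntermediateField ℚ (AlgebraicClosure ℚ)),
      (∀ K ∈ B, ∃ _ : NumberField K, Module.finrank ℚ K = n ∧ |(NumberField.discr K : ℝ)| ≤ X ∧ ¬ Few2 n ε K) →
      (B.card : ℝ) ≤ C * X ^ (1 - ε / (2 * n)) := by
  classical
  have hn2 : (2 : ℝ) ≤ n := by exact_mod_cast hn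
  have hn0 : (0 : ℝ) < n := by linarith
  obtain ⟨θ, hθd⟩ : ∃ θ : ℝ, θ = 1 / 2 + ε / 8 := ⟨_, rfl⟩
  have hθ : 1 / 2 < θ := by rw [hθd]; linarith
  obtain ⟨C, hC, h⟩ := fields_card2 n hn hθ
  have hγ0 : 0 < (2 - ε) * θ := by
    apply mul_pos <;> linarith
  have hγ1 : (2 - ε) * θ < 1 := by rw [hθd]; nlinarith
  obtain ⟨K0, hK0⟩ := growth2 (A := (C * 2 ^ θ + 4) * 2 ^ θ) (b := ε / (2 * n)) (by positivity) (by positivity) hγ0 hγ1
  refine ⟨25 * Real.exp (n * (n - 2) + n + ε / (2 * n) + K0), by positivity, fun X hX B hB => ?_⟩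
  have hX0 : 0 < X := by linarith
  obtain ⟨L, hL⟩ : ∃ L : ℝ, L = Real.log X := ⟨_, rfl⟩
  have hL0 : 0 ≤ L := by rw [hL]; exact Real.log_nonneg hX
  obtain ⟨T, hT⟩ : ∃ T : ℝ, T = L ^ (2 - ε) := ⟨_, rfl⟩
  have hT0 : 0 ≤ T := by rw [hT]; positivity
  have hlog2 : Real.log 2 ≤ 1 := by
    have := Real.log_le_sub_one_of_pos (show (0 : ℝ) < 2 by norm_num)
    linarith
  have hlog20 : 0 < Real.log 2 := Real.log_pos (by norm_num)
  obtain ⟨J, hJ⟩ : ∃ J : ℕ, J = ⌈3 * T + 3⌉₊ + 1 := ⟨_, rfl⟩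
  -- every bad field has many points for some parameters
  have hmain : ∀ K ∈ B, ∃ p ∈ range J ×ˢ range J, Module.finrank ℚ K = n ∧ (p.1 : ℝ) ≤ T + 1 ∧
      Real.exp (n * (n - 2) * (p.1 - 1) + n * (p.2 - 1) - (1 - ε / n) * L) ≤ ((GenA K p.1 p.2).ncard : ℝ) := by
    intro K hK
    obtain ⟨hnf, h1, h2, h3⟩ := hB K hK
    have hrd0 := rootDisc_nn K
    have hrd : rootDisc K ≤ L / n := by
      unfold rootDisc
      rw [h1, hL]
      apply div_le_div_of_nonneg_right _ hn0.le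
      apply Real.log_le_log _ h2
      have := one_le_disc (K := K)
      linarith
    unfold Few2 at h3
    push Not at h3
    obtain ⟨T', W, hT', hT'2, hW, h4⟩ := h3
    have hLn : L / n ≤ L := div_le_self hL0 (by linarith)
    have hTK : T' ≤ T := by
      refine hT'2.trans ?_
      rw [hT]
      exact Real.rpow_le_rpow hrd0 (hrd.trans hLn) (by linarith)
    obtain ⟨W', hW'⟩ : ∃ W' : ℝ, W' = min W (3 * T + 3) := ⟨_, rfl⟩
    have hW'0 : 0 ≤ W' := by rw [hW']; exact le_min hW (by positivity)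
    have hsub : GenK K T' W ⊆ GenK K (⌈T'⌉₊ : ℕ) (⌈W'⌉₊ : ℕ) := by
      rintro x ⟨k1, k2, k3⟩
      refine ⟨k1, k2.trans (Nat.le_ceil T'), ?_⟩
      have hirr := gen_irr (by omega) k1
      have hx0 : x ≠ 0 := fun h0 => hirr 0 (by rw [h0, map_zero])
      have hx1 : x ≠ 1 := fun h0 => hirr 1 (by rw [h0, map_one])
      have k4 := cond_le_gen hx0 hx1
      refine le_trans ?_ (Nat.le_ceil W')
      rw [hW']
      apply le_min k3
      have := k2.trans hTK
      linarith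
    have hceilT : ((⌈T'⌉₊ : ℕ) : ℝ) < T' + 1 := Nat.ceil_lt_add_one hT'
    have hceilW : ((⌈W'⌉₊ : ℕ) : ℝ) < W' + 1 := Nat.ceil_lt_add_one hW'0
    refine ⟨(⌈T'⌉₊, ⌈W'⌉₊), ?_, h1, ?_, ?_⟩
    · rw [mem_product, mem_range, mem_range, hJ, Nat.lt_succ_iff, Nat.lt_succ_iff]
      constructor
      · apply Nat.ceil_mono
        linarith
      · apply Nat.ceil_mono
        rw [hW']
        exact min_le_right _ _
    · show ((⌈T'⌉₊ : ℕ) : ℝ) ≤ T + 1
      linarith
    · show Real.exp (n * (n - 2) * ((⌈T'⌉₊ : ℕ) - 1) + n * ((⌈W'⌉₊ : ℕ) - 1) - (1 - ε / n) * L) ≤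
        ((GenA K (⌈T'⌉₊ : ℕ) (⌈W'⌉₊ : ℕ)).ncard : ℝ)
      rw [genA_ncard]
      have h5 : ((GenK K T' W).ncard : ℝ) ≤ ((GenK K (⌈T'⌉₊ : ℕ) (⌈W'⌉₊ : ℕ)).ncard : ℝ) := by
        exact_mod_cast Set.ncard_le_ncard hsub (genK_finite n hn K h1 _ _)
      refine le_trans (Real.exp_le_exp.2 ?_) (h4.le.trans h5)
      have h7 : W' ≤ W := by rw [hW']; exact min_le_left _ _
      have h8 : (n - ε) * rootDisc K ≤ (n - ε) * (L / n) := mul_le_mul_of_nonneg_left hrd (by linarith)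
      have h9 : (n - ε) * (L / n) = (1 - ε / n) * L := by
        field_simp
      have h10 : (n : ℝ) * (n - 2) * ((⌈T'⌉₊ : ℕ) - 1) ≤ n * (n - 2) * T' :=
        mul_le_mul_of_nonneg_left (by linarith) (mul_nonneg hn0.le (by linarith))
      have h11 : (n : ℝ) * ((⌈W'⌉₊ : ℕ) - 1) ≤ n * W := mul_le_mul_of_nonneg_left (by linarith) hn0.le
      linarith
  -- the fields for one pair of parameters
  have hone : ∀ p ∈ range J ×ˢ range J, ((B.filter fun K : IntermediateField ℚ (AlgebraicClosure ℚ) =>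
      Module.finrank ℚ K = n ∧ (p.1 : ℝ) ≤ T + 1 ∧
      Real.exp (n * (n - 2) * (p.1 - 1) + n * (p.2 - 1) - (1 - ε / n) * L) ≤ ((GenA K p.1 p.2).ncard : ℝ)).card : ℝ) ≤
        Real.exp (n * (n - 2) + n + (1 - ε / n) * L + C * (T + 2) ^ θ) := by
    intro p _
    by_cases hp : (p.1 : ℝ) ≤ T + 1
    · have h1 := h p.1 p.2 (Real.exp (n * (n - 2) * (p.1 - 1) + n * (p.2 - 1) - (1 - ε / n) * L))
        (B.filter fun K : IntermediateField ℚ (AlgebraicClosure ℚ) =>
          Module.finrank ℚ K = n ∧ (p.1 : ℝ) ≤ T + 1 ∧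
          Real.exp (n * (n - 2) * (p.1 - 1) + n * (p.2 - 1) - (1 - ε / n) * L) ≤ ((GenA K p.1 p.2).ncard : ℝ))
        (Nat.cast_nonneg _) (fun K hK => by
          rw [mem_filter] at hK
          exact ⟨hK.2.1, hK.2.2.2⟩)
      have h2 : (0 : ℝ) < Real.exp (n * (n - 2) * (p.1 - 1) + n * (p.2 - 1) - (1 - ε / n) * L) := Real.exp_pos _
      rw [mul_comm, ← le_div_iff₀ h2, ← Real.exp_sub] at h1
      refine h1.trans (Real.exp_le_exp.2 ?_)
      have h3 : ((p.1 : ℝ) + 1) ^ θ ≤ (T + 2) ^ θ :=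
        Real.rpow_le_rpow (by positivity) (by linarith) (by linarith)
      have h4 := mul_le_mul_of_nonneg_left h3 hC.le
      linarith
    · rw [filter_false_of_mem (fun K _ h => hp h.2.1), card_empty, Nat.cast_zero]
      exact (Real.exp_pos _).le
  have hcard : (B.card : ℝ) ≤ (J : ℝ) ^ 2 * Real.exp (n * (n - 2) + n + (1 - ε / n) * L + C * (T + 2) ^ θ) := by
    have hcov : B ⊆ (range J ×ˢ range J).biUnion fun p => B.filter fun K : IntermediateField ℚ (AlgebraicClosure ℚ) =>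
        Module.finrank ℚ K = n ∧ (p.1 : ℝ) ≤ T + 1 ∧
        Real.exp (n * (n - 2) * (p.1 - 1) + n * (p.2 - 1) - (1 - ε / n) * L) ≤ ((GenA K p.1 p.2).ncard : ℝ) := by
      intro K hK
      obtain ⟨p, hp, h1⟩ := hmain K hK
      rw [mem_biUnion]
      exact ⟨p, hp, mem_filter.2 ⟨hK, h1⟩⟩
    have h1 : (B.card : ℝ) ≤ ∑ p ∈ range J ×ˢ range J,
        ((B.filter fun K : IntermediateField ℚ (AlgebraicClosure ℚ) => Module.finrank ℚ K = n ∧ (p.1 : ℝ) ≤ T + 1 ∧
        Real.exp (n * (n - 2) * (p.1 - 1) + n * (p.2 - 1) - (1 - ε / n) * L) ≤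
          ((GenA K p.1 p.2).ncard : ℝ)).card : ℝ) := by
      exact_mod_cast (card_le_card hcov).trans card_biUnion_le
    refine h1.trans ((sum_le_sum hone).trans (le_of_eq ?_))
    rw [sum_const, card_product, card_range, nsmul_eq_mul]
    push_cast
    ring
  have hT1 : 1 ≤ T + 1 := by linarith
  have hJle : (J : ℝ) ≤ 5 * Real.exp (2 * (T + 1) ^ θ) := by
    have h1 : (J : ℝ) ≤ 5 * (T + 1) := by
      rw [hJ]
      push_cast
      have h2 : ((⌈3 * T + 3⌉₊ : ℕ) : ℝ) < 3 * T + 3 + 1 := Nat.ceil_lt_add_one (by positivity)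
      linarith
    have h2 : T + 1 ≤ Real.exp (2 * (T + 1) ^ θ) := by
      have h3 : (T + 1) ^ (1 / 2 : ℝ) ≤ (T + 1) ^ θ := Real.rpow_le_rpow_of_exponent_le hT1 hθ.le
      have h4 : (T + 1) ^ (1 / 2 : ℝ) * (T + 1) ^ (1 / 2 : ℝ) = T + 1 := by
        rw [← Real.rpow_add (by linarith)]
        norm_num
      have h5 := Real.add_one_le_exp ((T + 1) ^ (1 / 2 : ℝ))
      have h6 : (0 : ℝ) ≤ (T + 1) ^ (1 / 2 : ℝ) := by positivity
      calc T + 1 = (T + 1) ^ (1 / 2 : ℝ) * (T + 1) ^ (1 / 2 : ℝ) := h4.symm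
        _ ≤ Real.exp ((T + 1) ^ (1 / 2 : ℝ)) * Real.exp ((T + 1) ^ (1 / 2 : ℝ)) := by
            apply mul_le_mul (by linarith) (by linarith) h6 (Real.exp_pos _).le
        _ = Real.exp (2 * (T + 1) ^ (1 / 2 : ℝ)) := by rw [← Real.exp_add]; congr 1; ring
        _ ≤ _ := Real.exp_le_exp.2 (by linarith)
    linarith
  have hT2 : (T + 2) ^ θ ≤ 2 ^ θ * (T + 1) ^ θ := by
    rw [← Real.mul_rpow (by norm_num) (by linarith)]
    exact Real.rpow_le_rpow (by linarith) (by linarith) (by linarith)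
  have hTθ : (T + 1) ^ θ ≤ 2 ^ θ * (L + 1) ^ ((2 - ε) * θ) := by
    have h1 : T + 1 ≤ 2 * (L + 1) ^ (2 - ε) := by
      have h2 : T ≤ (L + 1) ^ (2 - ε) := by
        rw [hT]
        exact Real.rpow_le_rpow hL0 (by linarith) (by linarith)
      have h3 : 1 ≤ (L + 1) ^ (2 - ε) := Real.one_le_rpow (by linarith) (by linarith)
      linarith
    calc (T + 1) ^ θ ≤ (2 * (L + 1) ^ (2 - ε)) ^ θ := Real.rpow_le_rpow (by linarith) h1 (by linarith)
      _ = 2 ^ θ * (L + 1) ^ ((2 - ε) * θ) := by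
          rw [Real.mul_rpow (by norm_num) (by positivity), ← Real.rpow_mul (by linarith)]
  have hgr := hK0 (L + 1) (by linarith)
  have hexp : 4 * (T + 1) ^ θ + (n * (n - 2) + n + (1 - ε / n) * L + C * (T + 2) ^ θ) ≤
      n * (n - 2) + n + ε / (2 * n) + K0 + (1 - ε / (2 * n)) * L := by
    have h0 : C * (T + 2) ^ θ ≤ C * (2 ^ θ * (T + 1) ^ θ) := mul_le_mul_of_nonneg_left hT2 hC.le
    have h1 : (C * 2 ^ θ + 4) * (T + 1) ^ θ ≤ (C * 2 ^ θ + 4) * (2 ^ θ * (L + 1) ^ ((2 - ε) * θ)) :=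
      mul_le_mul_of_nonneg_left hTθ (by positivity)
    have h2 : ε / (2 * n) * (L + 1) = ε / (2 * n) * L + ε / (2 * n) := by ring
    have h3 : ε / n * L = ε / (2 * n) * L + ε / (2 * n) * L := by
      field_simp
      ring
    rw [h2] at hgr
    linarith
  calc (B.card : ℝ) ≤ (J : ℝ) ^ 2 * Real.exp (n * (n - 2) + n + (1 - ε / n) * L + C * (T + 2) ^ θ) := hcard
    _ ≤ (5 * Real.exp (2 * (T + 1) ^ θ)) ^ 2 * Real.exp (n * (n - 2) + n + (1 - ε / n) * L + C * (T + 2) ^ θ) := by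
        apply mul_le_mul_of_nonneg_right _ (Real.exp_pos _).le
        exact pow_le_pow_left₀ (Nat.cast_nonneg _) hJle 2
    _ = 25 * Real.exp (4 * (T + 1) ^ θ + (n * (n - 2) + n + (1 - ε / n) * L + C * (T + 2) ^ θ)) := by
        rw [Real.exp_add (4 * (T + 1) ^ θ), mul_pow, ← Real.exp_nat_mul]
        have : ((2 : ℕ) : ℝ) * (2 * (T + 1) ^ θ) = 4 * (T + 1) ^ θ := by push_cast; ring
        rw [this]
        ring
    _ ≤ 25 * Real.exp (n * (n - 2) + n + ε / (2 * n) + K0 + (1 - ε / (2 * n)) * L) := by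
        apply mul_le_mul_of_nonneg_left (Real.exp_le_exp.2 hexp) (by norm_num)
    _ = 25 * Real.exp (n * (n - 2) + n + ε / (2 * n) + K0) * X ^ (1 - ε / (2 * n)) := by
        rw [Real.exp_add (n * (n - 2) + n + ε / (2 * n) + K0), Real.rpow_def_of_pos hX0, ← hL,
          mul_comm (1 - ε / (2 * n)) L]
        ring

end Pool.Agent.H46QF
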