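import Pool.Agent.H46QF.Fld
import Pool.Agent.R365.QP.HsumP
import Pool.Agent.H845.Voj.Disc

/-!
Real quadratic fields: points of small conductor, and the number of the fields.
-/

set_option autoImplicit false

namespace Pool.Agent.H46QF

open NumberField IsDedekindDomain Finset
open Pool.Agent.W222.UABC
open Pool.Agent.R365.QP (S_HSUM t_HSUM cond_le)

section Cond

variable {K : Type} [Field K] [NumberField K]

/-- the primes that divide an element -/
theorem sum_log_le (y : 𝓞 K) (hy : y ≠ 0) (S : Finset (HeightOneSpectrum (𝓞 K))) (hS : ∀ v ∈ S, y ∈ v.asIdeal) :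
    ∑ v ∈ S, Real.log (Ideal.absNorm v.asIdeal : ℝ) ≤ Real.log |((Algebra.norm ℤ y : ℤ) : ℝ)| := by
  classical
  have hne : ∀ v : HeightOneSpectrum (𝓞 K), (Ideal.absNorm v.asIdeal : ℝ) ≠ 0 := by
    intro v
    have : Ideal.absNorm v.asIdeal ≠ 0 := Ideal.absNorm_ne_zero_of_nonZeroDivisors
      ⟨v.asIdeal, mem_nonZeroDivisors_of_ne_zero v.ne_bot⟩
    exact_mod_cast this
  have hdvd : ∏ I ∈ S.image (fun v => v.asIdeal), I ∣ Ideal.span {y} := by
    apply Finset.prod_primes_dvd
    · intro I hI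
      obtain ⟨v, _, rfl⟩ := mem_image.1 hI
      exact v.prime
    · intro I hI
      obtain ⟨v, hv, rfl⟩ := mem_image.1 hI
      rw [Ideal.dvd_span_singleton]
      exact hS v hv
  rw [prod_image (fun v _ w _ h => HeightOneSpectrum.ext h)] at hdvd
  have h1 : ∏ v ∈ S, Ideal.absNorm v.asIdeal ∣ (Algebra.norm ℤ y).natAbs := by
    rw [← Ideal.absNorm_span_singleton, ← map_prod]
    exact map_dvd Ideal.absNorm hdvd
  have h2 : (Algebra.norm ℤ y).natAbs ≠ 0 := by
    rw [Int.natAbs_ne_zero]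
    exact Algebra.norm_ne_zero_iff.2 hy
  have h3 : ((∏ v ∈ S, Ideal.absNorm v.asIdeal : ℕ) : ℝ) ≤ |((Algebra.norm ℤ y : ℤ) : ℝ)| := by
    have h4 := Nat.le_of_dvd (Nat.pos_of_ne_zero h2) h1
    have h5 : (((Algebra.norm ℤ y).natAbs : ℕ) : ℝ) = |((Algebra.norm ℤ y : ℤ) : ℝ)| := by
      rw [Nat.cast_natAbs, Int.cast_abs]
    rw [← h5]
    exact_mod_cast h4
  rw [← Real.log_prod (fun v _ => hne v)]
  apply Real.log_le_log
  · apply prod_pos
    intro v _
    exact lt_of_le_of_ne (Nat.cast_nonneg _) (hne v).symm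
  · push_cast at h3
    exact h3

/-- the conductor of an integral point -/
theorem cond_le_norm (z : 𝓞 K) (h0 : z ≠ 0) (h1 : z ≠ 1) :
    (Module.finrank ℚ K : ℝ) * W222.UABC.conductor ![(z : K), 1 - z, -1] ≤
      Real.log |((Algebra.norm ℤ (z * (1 - z)) : ℤ) : ℝ)| := by
  classical
  have hn : (Module.finrank ℚ K : ℝ) ≠ 0 := by
    exact_mod_cast (Module.finrank_pos (R := ℚ) (M := K)).ne'
  have hy : z * (1 - z) ≠ 0 := mul_ne_zero h0 (sub_ne_zero.2 h1.symm)
  have hfin : {v : HeightOneSpectrum (𝓞 K) | z * (1 - z) ∈ v.asIdeal}.Finite := by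
    have h2 := Ideal.finite_factors (I := Ideal.span {z * (1 - z)}) (by
      rw [Ne, Ideal.zero_eq_bot, Ideal.span_singleton_eq_bot]
      exact hy)
    refine h2.subset fun v hv => ?_
    rw [Set.mem_ofPred_eq, Ideal.dvd_span_singleton]
    exact hv
  have hcond : ∀ v : HeightOneSpectrum (𝓞 K), z * (1 - z) ∉ v.asIdeal →
      FinitePlace.mk v ((![(z : K), 1 - z, -1] : Fin 3 → K) 0) =
        FinitePlace.mk v ((![(z : K), 1 - z, -1] : Fin 3 → K) 1) ∧
      FinitePlace.mk v ((![(z : K), 1 - z, -1] : Fin 3 → K) 1) =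
        FinitePlace.mk v ((![(z : K), 1 - z, -1] : Fin 3 → K) 2) := by
    intro v hv
    have e0 : FinitePlace.mk v (z : K) = 1 := by
      rw [FinitePlace.mk_apply]
      exact (FinitePlace.norm_eq_one_iff_notMem K v z).2 fun h => hv (Ideal.mul_mem_right _ _ h)
    have e1 : FinitePlace.mk v ((1 : K) - z) = 1 := by
      have h3 : ((1 : K) - z) = ((1 - z : 𝓞 K) : K) := by push_cast; rfl
      rw [h3, FinitePlace.mk_apply]
      exact (FinitePlace.norm_eq_one_iff_notMem K v (1 - z)).2 fun h => hv (Ideal.mul_mem_left _ _ h)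
    have e2 : FinitePlace.mk v (-1 : K) = 1 := by
      rw [map_neg_eq_map, map_one]
    simp only [Matrix.cons_val_zero, Matrix.cons_val_one, Matrix.cons_val]
    rw [e0, e1, e2]
    exact ⟨rfl, rfl⟩
  unfold W222.UABC.conductor
  rw [mul_div_cancel₀ _ hn]
  rw [finsum_eq_sum_of_support_subset (s := hfin.toFinset)]
  · refine le_trans (sum_le_sum fun v _ => ?_) (sum_log_le (z * (1 - z)) hy hfin.toFinset fun v hv => by
      rw [Set.Finite.mem_toFinset] at hv
      exact hv)
    by_cases hc : ¬ (FinitePlace.mk v ((![(z : K), 1 - z, -1] : Fin 3 → K) 0) =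
        FinitePlace.mk v ((![(z : K), 1 - z, -1] : Fin 3 → K) 1) ∧
      FinitePlace.mk v ((![(z : K), 1 - z, -1] : Fin 3 → K) 1) =
        FinitePlace.mk v ((![(z : K), 1 - z, -1] : Fin 3 → K) 2))
    · rw [finsum_eq_if, if_pos hc]
    · rw [finsum_eq_if, if_neg hc]
      exact Real.log_natCast_nonneg _
  · intro v hv
    rw [Function.mem_support] at hv
    rw [Set.Finite.coe_toFinset, Set.mem_ofPred_eq]
    by_contra hcon
    apply hv
    rw [finsum_eq_if, if_neg]
    exact not_not.2 (hcond v hcon)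

/-- the discriminant of a quadratic field and a squarefree number -/
theorem disc_rel {s : ℤ} (hns : ¬ IsSquare s) (h2 : Module.finrank ℚ K = 2) (x : K) (hx : x ^ 2 = s) :
    ∃ f : ℤ, 4 * s = f ^ 2 * discr K := by
  obtain ⟨b, h0, h1⟩ := Pool.Agent.H845.Voj.exists_basis hns h2 x hx
  have hint : IsIntegral ℤ x := by
    refine ⟨Polynomial.X ^ 2 - Polynomial.C s, ?_, ?_⟩
    · exact Polynomial.monic_X_pow_sub_C _ (by norm_num)
    · rw [Polynomial.eval₂_sub, Polynomial.eval₂_pow, Polynomial.eval₂_X, Polynomial.eval₂_C,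
        eq_intCast, hx, sub_self]
  set ζ : 𝓞 K := ⟨x, hint⟩ with hζ
  have hζx : (ζ : K) = ((0:ℚ):K) + ((1:ℚ):K) * x := by
    have h9 : (ζ : K) = x := rfl
    rw [h9]
    simp
  have hfr : Module.finrank ℤ (𝓞 K) = 2 := by rw [RingOfIntegers.rank]; exact h2
  let c := Module.finBasisOfFinrankEq ℤ (𝓞 K) hfr
  have h3 : Algebra.discr ℤ ![(1 : 𝓞 K), ζ] = (c.toMatrix ![(1 : 𝓞 K), ζ]).det ^ 2 *
      Algebra.discr ℤ c := by
    rw [← Algebra.discr_of_matrix_vecMul]
    congr 1
    exact (Module.Basis.toMatrix_map_vecMul c _).symm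
  rw [NumberField.discr_eq_discr K c] at h3
  have h4 : (Algebra.discr ℤ ![(1 : 𝓞 K), ζ] : ℤ) = 4 * s := by
    have h5 : ((Algebra.discr ℤ ![(1 : 𝓞 K), ζ] : ℤ) : ℚ) = 4 * s := by
      rw [Algebra.discr_def, Matrix.det_fin_two]
      simp only [Algebra.traceMatrix_apply, Algebra.traceForm_apply, Matrix.cons_val_zero,
        Matrix.cons_val_one, one_mul, mul_one]
      push_cast
      rw [Pool.Agent.H845.Voj.trZ hx b h0 h1 ζ 0 1 hζx, Pool.Agent.H845.Voj.trZ hx b h0 h1 1 1 0 (by simp),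
        Pool.Agent.H845.Voj.trZ hx b h0 h1 (ζ * ζ) s 0 (by
          have hω' : algebraMap (𝓞 K) K ζ = x := rfl
          rw [RingOfIntegers.coe_eq_algebraMap, map_mul, hω']
          push_cast
          linear_combination hx)]
      ring
    exact_mod_cast h5
  rw [h4] at h3
  exact ⟨_, h3⟩

/-- the norm -/
theorem norm_eq {s : ℤ} (hns : ¬ IsSquare s) (h2 : Module.finrank ℚ K = 2) (x : K) (hx : x ^ 2 = s)
    (z : 𝓞 K) (p q : ℤ) (hz : (z : K) = p + q * x) : Algebra.norm ℤ z = p ^ 2 - s * q ^ 2 := by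
  obtain ⟨b, h0, h1⟩ := Pool.Agent.H845.Voj.exists_basis hns h2 x hx
  have h3 : ((Algebra.norm ℤ z : ℤ) : ℚ) = p ^ 2 - s * q ^ 2 := by
    rw [Algebra.coe_norm_int, hz, Algebra.norm_eq_matrix_det b]
    have h4 := Pool.Agent.H845.Voj.mat hx b h0 h1 p q
    push_cast at h4
    rw [h4, Matrix.det_fin_two]
    simp
    ring
  exact_mod_cast h3

theorem exists_sq (K : Type) [Field K] [NumberField K] (h2 : Module.finrank ℚ K = 2) :
    ∃ (x : K) (m : ℤ), x ^ 2 = (m : K) ∧ ∀ q : ℚ, (q : K) ≠ x := by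
  obtain ⟨θ, hθ⟩ : ∃ θ : K, ∀ q : ℚ, (q : K) ≠ θ := by
    by_contra hcon
    push Not at hcon
    have h3 : (⊤ : Submodule ℚ K) = Submodule.span ℚ {(1 : K)} := by
      rw [eq_comm, Submodule.eq_top_iff']
      intro y
      obtain ⟨q, hq⟩ := hcon y
      rw [Submodule.mem_span_singleton]
      exact ⟨q, by rw [← hq, Rat.smul_def, mul_one]⟩
    have h4 := finrank_span_singleton (K := ℚ) (one_ne_zero : (1 : K) ≠ 0)
    rw [← h3, finrank_top] at h4
    omega
  have hli : ¬ LinearIndependent ℚ (fun i : Fin 3 => θ ^ (i : ℕ)) := by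
    intro h
    have := h.fintype_card_le_finrank
    rw [h2, Fintype.card_fin] at this
    omega
  rw [Fintype.not_linearIndependent_iff] at hli
  obtain ⟨g, hg, i, hi⟩ := hli
  rw [Fin.sum_univ_three] at hg
  simp only [Fin.val_zero, pow_zero, Fin.val_one, pow_one, Fin.val_two, Rat.smul_def] at hg
  set a := g 2 with ha
  set b := g 1 with hb
  set c := g 0 with hc
  have ha0 : a ≠ 0 := by
    intro h0
    rw [h0] at hg
    by_cases hb0 : b = 0
    · rw [hb0] at hg
      have hc0 : c = 0 := by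
        have : ((c : ℚ) : K) = 0 := by simpa using hg
        exact_mod_cast this
      apply hi
      fin_cases i
      · exact hc0
      · exact hb0
      · exact h0
    · have hbK : ((b : ℚ) : K) ≠ 0 := by exact_mod_cast hb0
      apply hθ (-c / b)
      push_cast
      rw [div_eq_iff hbK]
      linear_combination -hg
  have haK : ((a : ℚ) : K) ≠ 0 := by exact_mod_cast ha0
  set r : ℚ := b ^ 2 - 4 * a * c with hr
  set y : K := 2 * (a : K) * θ + (b : K) with hy
  have hy2 : y ^ 2 = ((r : ℚ) : K) := by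
    rw [hy, hr]
    push_cast
    linear_combination 4 * (a : K) * hg
  refine ⟨(r.den : K) * y, r.num * r.den, ?_, ?_⟩
  · have h5 : (r.num : ℚ) = r * r.den := (Rat.mul_den_eq_num r).symm
    have h6 : ((r.num : ℤ) : K) = (r : K) * (r.den : K) := by
      have h7 := congrArg (fun q : ℚ => (q : K)) h5
      push_cast at h7
      exact h7
    rw [mul_pow, hy2]
    push_cast
    rw [h6]
    ring
  · intro q hq
    have hden : ((r.den : ℕ) : K) ≠ 0 := by exact_mod_cast r.den_ne_zero
    apply hθ ((q / r.den - b) / (2 * a))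
    push_cast
    rw [div_eq_iff (mul_ne_zero two_ne_zero haK)]
    have : (q : K) / (r.den : K) = y := by
      rw [div_eq_iff hden, hq]
      ring
    rw [this, hy]
    ring

theorem exists_sqfree (K : Type) [Field K] [NumberField K] (h2 : Module.finrank ℚ K = 2)
    (hpos : 0 < discr K) :
    ∃ (x : K) (a : ℕ), 1 < a ∧ Squarefree a ∧ x ^ 2 = (a : K) ∧ ∀ q : ℚ, (q : K) ≠ x := by
  obtain ⟨x, m, hx, hxq⟩ := exists_sq K h2
  have hm0 : m ≠ 0 := by
    rintro rfl
    apply hxq 0
    rw [Int.cast_zero, sq_eq_zero_iff] at hx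
    rw [hx, Rat.cast_zero]
  -- a real embedding
  have hreal : ∃ φ : K →+* ℝ, True := by
    classical
    have hs := sign_discr (K := K)
    rw [Int.sign_eq_one_of_pos hpos] at hs
    have hcard := InfinitePlace.card_add_two_mul_card_eq_rank K
    rw [h2] at hcard
    have hr2 : InfinitePlace.nrComplexPlaces K = 0 := by
      by_contra h
      have h1 : InfinitePlace.nrComplexPlaces K = 1 := by omega
      rw [h1] at hs
      norm_num at hs
    have hr1 : 0 < InfinitePlace.nrRealPlaces K := by omega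
    unfold InfinitePlace.nrRealPlaces at hr1
    obtain ⟨⟨w, hw⟩⟩ := Fintype.card_pos_iff.1 hr1
    exact ⟨InfinitePlace.embedding_of_isReal hw, trivial⟩
  obtain ⟨φ, -⟩ := hreal
  have hm : 0 < m := by
    have h3 : (φ x) ^ 2 = (m : ℝ) := by rw [← map_pow, hx, map_intCast]
    have h4 : (0 : ℝ) ≤ (m : ℝ) := by rw [← h3]; exact sq_nonneg _
    have h5 : (0 : ℤ) ≤ m := by exact_mod_cast h4
    omega
  lift m to ℕ using hm.le
  have hm' : 0 < m := by exact_mod_cast hm
  obtain ⟨a, f, ha, hf, haf, hsq⟩ := Nat.sq_mul_squarefree_of_pos hm'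
  have hfK : (f : K) ≠ 0 := Nat.cast_ne_zero.2 hf.ne'
  refine ⟨x / f, a, ?_, hsq, ?_, ?_⟩
  · by_contra hcon
    have ha1 : a = 1 := by omega
    rw [ha1, mul_one] at haf
    have h6 : x ^ 2 = (f : K) ^ 2 := by
      rw [hx, ← haf]
      push_cast
      rfl
    rcases sq_eq_sq_iff_eq_or_eq_neg.1 h6 with h | h
    · apply hxq f
      rw [h]
      push_cast
      rfl
    · apply hxq (-f)
      rw [h]
      push_cast
      rfl
  · rw [div_pow, hx, ← haf]
    push_cast
    field_simp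
  · intro q hq
    apply hxq (q * f)
    push_cast
    rw [hq]
    field_simp

end Cond

/-- a squarefree number larger than one is not a square -/
lemma not_sq {a : ℕ} (ha : 1 < a) (hs : Squarefree a) : ¬ IsSquare (a : ℤ) := by
  rintro ⟨r, hr⟩
  have h1 : (Squarefree (a : ℤ)) := by
    rw [← Int.squarefree_natAbs]
    simpa using hs
  have h2 : IsUnit r := h1 r ⟨1, by rw [hr, mul_one]⟩
  rcases Int.isUnit_iff.1 h2 with h | h <;> rw [h] at hr <;> norm_num at hr <;> omega

/-- every real quadratic field has a point of small height and small conductor -/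
theorem real_point : ∃ C : ℝ, 0 < C ∧ ∀ (K : Type) [Field K] [NumberField K], Module.finrank ℚ K = 2 → 0 < discr K →
    ∃ x : K, (∀ q : ℚ, x ≠ algebraMap ℚ K q) ∧ W222.UABC.conductor ![x, 1 - x, -1] ≤ rootDisc K + C ∧
      W222.UABC.height ![x, 1 - x, -1] ≤ rootDisc K / 2 + C := by
  obtain ⟨C0, hC0⟩ := t_HSUM
  refine ⟨|C0| + 3, by positivity, fun K _ _ hK hpos => ?_⟩
  obtain ⟨x, a, ha1, hsq, hx, hirr⟩ := exists_sqfree K hK hpos
  have hns := not_sq ha1 hsq
  have hx' : x ^ 2 = ((a : ℤ) : K) := by rw [hx]; push_cast; rfl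
  have hsqZ : (Squarefree (a : ℤ)) := by
    rw [← Int.squarefree_natAbs]
    simpa using hsq
  have hdisc := Pool.Agent.H845.Voj.disc_ge hsqZ hK x hx'
  rw [Int.natAbs_natCast] at hdisc
  have hdR : (a : ℝ) ≤ |(discr K : ℝ)| := by exact_mod_cast hdisc
  have ha0 : (0 : ℝ) < a := by exact_mod_cast (by omega : 0 < a)
  have hrd : Real.log a ≤ 2 * rootDisc K := by
    unfold rootDisc
    rw [hK]
    have := Real.log_le_log ha0 hdR
    push_cast
    linarith
  obtain ⟨u, hu⟩ : ∃ u : ℕ, u = Nat.sqrt a := ⟨_, rfl⟩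
  have hu1 : u * u ≤ a := by rw [hu]; exact Nat.sqrt_le a
  have hu2 : a < (u + 1) * (u + 1) := by rw [hu]; exact Nat.lt_succ_sqrt a
  have hu0 : 1 ≤ u := by nlinarith
  have hsqne : a ≠ u * u := by
    intro h
    exact hns ⟨u, by exact_mod_cast h⟩
  have hint : IsIntegral ℤ x := by
    refine ⟨Polynomial.X ^ 2 - Polynomial.C (a : ℤ), Polynomial.monic_X_pow_sub_C _ (by norm_num), ?_⟩
    rw [Polynomial.eval₂_sub, Polynomial.eval₂_pow, Polynomial.eval₂_X, Polynomial.eval₂_C,
      eq_intCast, hx', sub_self]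
  obtain ⟨X, hX⟩ : ∃ X : 𝓞 K, (X : K) = x := ⟨⟨x, hint⟩, rfl⟩
  -- the conductor of `q x - u`, `q = ± 1`
  have hcond : ∀ q : ℤ, q ^ 2 = 1 → (∀ r : ℚ, ((q : K) * x - u) ≠ algebraMap ℚ K r) ∧
      W222.UABC.conductor ![(q : K) * x - u, 1 - ((q : K) * x - u), -1] ≤ rootDisc K + (|C0| + 3) := by
    intro q hq
    have hqK : (q : K) * q = 1 := by
      have : ((q ^ 2 : ℤ) : K) = ((1 : ℤ) : K) := by rw [hq]
      push_cast at this
      rw [← this]
      ring
    have hqx : ∀ r : ℚ, ((q : K) * x - u) ≠ algebraMap ℚ K r := by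
      intro r hr
      apply hirr (q * (r + u))
      push_cast
      rw [eq_ratCast] at hr
      rw [← hr]
      linear_combination x * hqK
    refine ⟨hqx, ?_⟩
    obtain ⟨z, hz⟩ : ∃ z : 𝓞 K, z = q * X - u := ⟨_, rfl⟩
    have hzK : (z : K) = (q : K) * x - u := by
      rw [hz, ← hX]
      push_cast
      rfl
    have hz0 : z ≠ 0 := by
      intro h
      apply hqx 0
      rw [← hzK, h]
      simp
    have hz1 : z ≠ 1 := by
      intro h
      apply hqx 1
      rw [← hzK, h]
      simp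
    have h1 := cond_le_norm z hz0 hz1
    rw [hK, hzK] at h1
    have n1 : Algebra.norm ℤ z = (-(u : ℤ)) ^ 2 - a * q ^ 2 :=
      norm_eq hns hK x hx' z (-u) q (by rw [hzK]; push_cast; ring)
    have n2 : Algebra.norm ℤ (1 - z) = (1 + (u : ℤ)) ^ 2 - a * (-q) ^ 2 :=
      norm_eq hns hK x hx' (1 - z) (1 + u) (-q) (by
        have : ((1 - z : 𝓞 K) : K) = 1 - (z : K) := by push_cast; rfl
        rw [this, hzK]
        push_cast
        ring)
    have n3 : Algebra.norm ℤ (z * (1 - z)) = ((u : ℤ) ^ 2 - a) * ((1 + (u : ℤ)) ^ 2 - a) := by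
      rw [map_mul, n1, n2, neg_sq, neg_sq, hq, mul_one]
    have hb1 : |(((u : ℤ) ^ 2 - a : ℤ) : ℝ)| ≤ 2 * u := by
      have : |((u : ℤ) ^ 2 - (a : ℤ))| ≤ 2 * (u : ℤ) := by
        have e1 : (u : ℤ) * u ≤ a := by exact_mod_cast hu1
        have e2 : (a : ℤ) < (u + 1) * (u + 1) := by exact_mod_cast hu2
        rw [abs_le]
        constructor <;> nlinarith
      exact_mod_cast this
    have hb2 : |(((1 + (u : ℤ)) ^ 2 - a : ℤ) : ℝ)| ≤ 3 * u := by
      have : |((1 + (u : ℤ)) ^ 2 - (a : ℤ))| ≤ 3 * (u : ℤ) := by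
        have e1 : (u : ℤ) * u ≤ a := by exact_mod_cast hu1
        have e2 : (a : ℤ) < (u + 1) * (u + 1) := by exact_mod_cast hu2
        have e3 : (1 : ℤ) ≤ u := by exact_mod_cast hu0
        rw [abs_le]
        constructor <;> nlinarith
      exact_mod_cast this
    have hua : (u : ℝ) * u ≤ a := by exact_mod_cast hu1
    have hprod : |((Algebra.norm ℤ (z * (1 - z)) : ℤ) : ℝ)| ≤ 6 * a := by
      rw [n3, Int.cast_mul, abs_mul]
      calc |(((u : ℤ) ^ 2 - a : ℤ) : ℝ)| * |(((1 + (u : ℤ)) ^ 2 - a : ℤ) : ℝ)| ≤ (2 * u) * (3 * u) := by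
            gcongr
        _ = 6 * (u * u) := by ring
        _ ≤ 6 * a := by linarith
    have hpos' : 0 < |((Algebra.norm ℤ (z * (1 - z)) : ℤ) : ℝ)| := by
      rw [abs_pos]
      have : Algebra.norm ℤ (z * (1 - z)) ≠ 0 := by
        rw [Algebra.norm_ne_zero_iff]
        exact mul_ne_zero hz0 (sub_ne_zero.2 hz1.symm)
      exact_mod_cast this
    have hlog := Real.log_le_log hpos' hprod
    rw [Real.log_mul (by norm_num) ha0.ne'] at hlog
    have hl6 : Real.log 6 ≤ 5 := by
      have := Real.log_le_sub_one_of_pos (show (0 : ℝ) < 6 by norm_num)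
      linarith
    have := abs_nonneg C0
    push_cast at h1
    linarith
  -- the heights
  have hh := hC0 K 1 (2 * u) ((u : ℤ) ^ 2 - a) (x - u) (-x - u) (3 * √a) one_ne_zero (by push_cast; ring) (by
      push_cast
      linear_combination -hx) (by
      have : (1 : ℝ) ≤ √a := by
        rw [Real.one_le_sqrt]
        exact_mod_cast (by omega : 1 ≤ a)
      rw [Int.cast_one, abs_one]
      linarith) (by
      have : (u : ℝ) ≤ √a := by
        apply Real.le_sqrt_of_sq_le
        rw [sq]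
        exact_mod_cast hu1
      push_cast
      rw [abs_of_nonneg (by positivity)]
      linarith [Real.sqrt_nonneg (a : ℝ)]) (by
      have h3 : (u : ℝ) ≤ √a := by
        apply Real.le_sqrt_of_sq_le
        rw [sq]
        exact_mod_cast hu1
      have h4 : |(((u : ℤ) ^ 2 - a : ℤ) : ℝ)| ≤ 2 * u := by
        have : |((u : ℤ) ^ 2 - (a : ℤ))| ≤ 2 * (u : ℤ) := by
          have e1 : (u : ℤ) * u ≤ a := by exact_mod_cast hu1
          have e2 : (a : ℤ) < (u + 1) * (u + 1) := by exact_mod_cast hu2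
          rw [abs_le]
          constructor <;> nlinarith
        exact_mod_cast this
      linarith [Real.sqrt_nonneg (a : ℝ)])
  have hlogT : Real.log (3 * √a) ≤ 2 + rootDisc K := by
    rw [Real.log_mul (by norm_num) (by positivity), Real.log_sqrt ha0.le]
    have := Real.log_le_sub_one_of_pos (show (0 : ℝ) < 3 by norm_num)
    linarith
  have hC0' := le_abs_self C0
  have hh' : W222.UABC.height ![x - (u : K), 1 - (x - u), -1] + W222.UABC.height ![-x - (u : K), 1 - (-x - u), -1] ≤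
      Real.log (3 * √a) + C0 := hh
  rcases le_total (W222.UABC.height ![x - (u : K), 1 - (x - u), -1])
    (W222.UABC.height ![-x - (u : K), 1 - (-x - u), -1]) with h | h
  · obtain ⟨k1, k2⟩ := hcond 1 (by norm_num)
    rw [Int.cast_one, one_mul] at k1 k2
    exact ⟨x - u, k1, k2, by linarith [abs_nonneg C0]⟩
  · obtain ⟨k1, k2⟩ := hcond (-1) (by norm_num)
    rw [Int.cast_neg, Int.cast_one, neg_one_mul] at k1 k2
    exact ⟨-x - u, k1, k2, by linarith [abs_nonneg C0]⟩

end Pool.Agent.H46QF
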