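import Pool.Agent.H46QF.Real

/-!
The number of the real quadratic fields, and of the points of degree two with small conductor.
-/

set_option autoImplicit false

namespace Pool.Agent.H46QF

open NumberField IsDedekindDomain Finset
open Pool.Agent.W222.UABC

lemma sum_inv_sq (n : ℕ) : ∑ d ∈ Ico 2 (n + 3), (1 : ℝ) / (d : ℝ) ^ 2 ≤ 3 / 4 - 1 / ((n : ℝ) + 2) := by
  induction n with
  | zero =>
    rw [show Ico 2 (0 + 3) = {2} by rfl, sum_singleton]
    norm_num
  | succ n ih =>
    rw [sum_Ico_succ_top (by omega)]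
    have h1 : (1 : ℝ) / ((n + 3 : ℕ) : ℝ) ^ 2 ≤ 1 / ((n : ℝ) + 2) - 1 / ((n : ℝ) + 3) := by
      have hn : (0 : ℝ) ≤ n := Nat.cast_nonneg n
      rw [div_sub_div _ _ (by positivity) (by positivity), div_le_div_iff₀ (by positivity) (by positivity)]
      push_cast
      nlinarith
    have h2 : ((n + 1 : ℕ) : ℝ) + 2 = (n : ℝ) + 3 := by push_cast; ring
    rw [h2]
    have h3 : n + 1 + 2 = n + 3 := by omega
    linarith

lemma sqf_count (N : ℕ) : (N : ℝ) / 4 - 1 ≤ ((range N).filter (fun n => Squarefree n)).card := by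
  classical
  rcases Nat.lt_or_ge N 3 with hN | hN
  · have h1 : (N : ℝ) ≤ 2 := by exact_mod_cast (by omega : N ≤ 2)
    have h2 : (0 : ℝ) ≤ ((range N).filter (fun n => Squarefree n)).card := Nat.cast_nonneg _
    linarith
  obtain ⟨n0, rfl⟩ : ∃ n0, N = n0 + 3 := ⟨N - 3, by omega⟩
  set N := n0 + 3 with hNdef
  have hcov : (range N).filter (fun n => ¬ Squarefree n) ⊆
      {0} ∪ (Ico 2 N).biUnion (fun d => (Ioc 0 (N - 1)).filter (fun n => d ^ 2 ∣ n)) := by
    intro n hn
    rw [mem_filter, mem_range] at hn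
    rw [mem_union, mem_singleton, mem_biUnion]
    rcases Nat.eq_zero_or_pos n with h0 | hpos
    · exact Or.inl h0
    right
    unfold Squarefree at hn
    have hn2 := hn.2
    push Not at hn2
    obtain ⟨d, hd, hdu⟩ := hn2
    have hd0 : d ≠ 0 := by
      rintro rfl
      rw [zero_mul, zero_dvd_iff] at hd
      omega
    have hd1 : d ≠ 1 := fun h => hdu (by rw [h]; exact isUnit_one)
    have hdn : d * d ≤ n := Nat.le_of_dvd hpos hd
    have hd2 : d ≤ d * d := Nat.le_mul_self d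
    refine ⟨d, ?_, ?_⟩
    · rw [mem_Ico]; omega
    · rw [mem_filter, mem_Ioc]
      refine ⟨⟨hpos, by omega⟩, ?_⟩
      rw [sq]; exact hd
  have h1 := card_le_card hcov
  have h2 : ({0} ∪ (Ico 2 N).biUnion
      (fun d => (Ioc 0 (N - 1)).filter (fun n => d ^ 2 ∣ n))).card ≤
      1 + ∑ d ∈ Ico 2 N, (N - 1) / d ^ 2 := by
    refine (card_union_le _ _).trans ?_
    apply Nat.add_le_add (by simp)
    refine card_biUnion_le.trans ?_
    apply sum_le_sum
    intro d _
    rw [Nat.Ioc_filter_dvd_card_eq_div]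
  have h3 : ((∑ d ∈ Ico 2 N, (N - 1) / d ^ 2 : ℕ) : ℝ) ≤ N * (3 / 4) := by
    push_cast
    calc ∑ d ∈ Ico 2 N, (((N - 1) / d ^ 2 : ℕ) : ℝ) ≤ ∑ d ∈ Ico 2 N, (N : ℝ) * (1 / (d : ℝ) ^ 2) := by
          apply sum_le_sum
          intro d _
          refine Nat.cast_div_le.trans ?_
          rw [mul_one_div]
          push_cast
          apply div_le_div_of_nonneg_right _ (by positivity)
          exact_mod_cast Nat.sub_le N 1
      _ = (N : ℝ) * ∑ d ∈ Ico 2 N, 1 / (d : ℝ) ^ 2 := by rw [mul_sum]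
      _ ≤ N * (3 / 4) := by
          apply mul_le_mul_of_nonneg_left _ (Nat.cast_nonneg _)
          refine (sum_inv_sq n0).trans ?_
          have : (0 : ℝ) ≤ 1 / ((n0 : ℝ) + 2) := by positivity
          linarith
  have h4 := card_filter_add_card_filter_not (s := range N) (fun n => Squarefree n)
  rw [card_range] at h4
  have h5 : (((range N).filter (fun n => ¬ Squarefree n)).card : ℝ) ≤ 1 + N * (3 / 4) := by
    have h6 : (((range N).filter (fun n => ¬ Squarefree n)).card : ℝ) ≤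
        ((1 + ∑ d ∈ Ico 2 N, (N - 1) / d ^ 2 : ℕ) : ℝ) := by exact_mod_cast h1.trans h2
    refine h6.trans ?_
    push_cast at h3 ⊢
    linarith
  have h7 : (((range N).filter (fun n => Squarefree n)).card : ℝ) +
      ((range N).filter (fun n => ¬ Squarefree n)).card = N := by exact_mod_cast h4
  linarith

/-- the field generated by the square root of a squarefree number -/
lemma exists_field {a : ℕ} (ha : 1 < a) (hs : Squarefree a) :
    ∃ (K : IntermediateField ℚ (AlgebraicClosure ℚ)) (_ : NumberField K) (r : K),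
      Module.finrank ℚ K = 2 ∧ r ^ 2 = ((a : ℤ) : K) := by
  obtain ⟨x, hx⟩ := IsAlgClosed.exists_pow_nat_eq (a : AlgebraicClosure ℚ) (n := 2) (by norm_num)
  have hirr : ∀ q : ℚ, x ≠ algebraMap ℚ (AlgebraicClosure ℚ) q := by
    intro q hq
    apply not_sq ha hs
    rw [← Rat.isSquare_intCast_iff]
    refine ⟨q, ?_⟩
    have : ((q * q : ℚ) : AlgebraicClosure ℚ) = ((a : ℤ) : ℚ) := by
      push_cast
      rw [← hx, hq, eq_ratCast]
      ring
    exact_mod_cast this.symm
  have hint : IsIntegral ℚ x := by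
    refine ⟨Polynomial.X ^ 2 - Polynomial.C (a : ℚ), Polynomial.monic_X_pow_sub_C _ (by norm_num), ?_⟩
    rw [Polynomial.eval₂_sub, Polynomial.eval₂_pow, Polynomial.eval₂_X, Polynomial.eval₂_C, hx]
    simp
  obtain ⟨K, hK⟩ : ∃ K : IntermediateField ℚ (AlgebraicClosure ℚ), K = IntermediateField.adjoin ℚ {x} := ⟨_, rfl⟩
  have hfd : FiniteDimensional ℚ K := by
    rw [hK]
    exact IntermediateField.adjoin.finiteDimensional hint
  have hnf : NumberField K := ⟨⟩
  have hxK : x ∈ K := by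
    rw [hK]
    exact IntermediateField.mem_adjoin_simple_self ℚ x
  refine ⟨K, hnf, ⟨x, hxK⟩, ?_, ?_⟩
  · have h1 : Module.finrank ℚ K = (minpoly ℚ x).natDegree := by
      rw [hK]
      exact IntermediateField.adjoin.finrank hint
    have h2 : (minpoly ℚ x).natDegree ≤ 2 := by
      have h3 : minpoly ℚ x ∣ Polynomial.X ^ 2 - Polynomial.C (a : ℚ) := by
        apply minpoly.dvd
        rw [map_sub, map_pow, Polynomial.aeval_X, Polynomial.aeval_C, hx]
        simp
      have h4 := Polynomial.natDegree_le_of_dvd h3 (Polynomial.monic_X_pow_sub_C _ (by norm_num)).ne_zero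
      rwa [Polynomial.natDegree_X_pow_sub_C] at h4
    have h5 : Module.finrank ℚ K ≠ 1 := by
      intro h
      rw [hK, IntermediateField.finrank_adjoin_simple_eq_one_iff, IntermediateField.mem_bot] at h
      obtain ⟨q, hq⟩ := h
      exact hirr q hq.symm
    have h6 : 0 < Module.finrank ℚ K := Module.finrank_pos
    omega
  · apply Subtype.ext
    push_cast
    exact hx

/-- squarefree numbers whose ratio is a square are equal -/
lemma sqf_eq {a b f g : ℕ} (ha : Squarefree a) (hb : Squarefree b) (hf : f ≠ 0) (hg : g ≠ 0)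
    (h : a * g ^ 2 = b * f ^ 2) : a = b := by
  apply Nat.eq_of_factorization_eq ha.ne_zero hb.ne_zero
  intro p
  have h1 : (a * g ^ 2).factorization p = (b * f ^ 2).factorization p := by rw [h]
  rw [Nat.factorization_mul ha.ne_zero (pow_ne_zero 2 hg), Nat.factorization_mul hb.ne_zero (pow_ne_zero 2 hf),
    Nat.factorization_pow, Nat.factorization_pow] at h1
  simp only [Finsupp.add_apply, Finsupp.smul_apply, smul_eq_mul] at h1
  have h2 := ha.natFactorization_le_one p
  have h3 := hb.natFactorization_le_one p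
  omega

/-- the real quadratic fields of discriminant at most `X` -/
def RealQ (X : ℝ) : Set (IntermediateField ℚ (AlgebraicClosure ℚ)) :=
  {K | ∃ _ : NumberField K, Module.finrank ℚ K = 2 ∧ 0 < discr K ∧ (discr K : ℝ) ≤ X}

theorem realQ_finite (X : ℝ) : (RealQ X).Finite := by
  have h := NumberField.finite_of_discr_bdd (AlgebraicClosure ℚ) ⌈X⌉₊
  refine (h.image Subtype.val).subset ?_
  rintro K ⟨hn, h1, h2, h3⟩
  have hfd : FiniteDimensional ℚ K := Module.finite_of_finrank_pos (by omega)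
  refine ⟨⟨K, hfd⟩, ?_, rfl⟩
  show |discr K| ≤ _
  have h4 : (discr K : ℝ) ≤ (⌈X⌉₊ : ℕ) := h3.trans (Nat.le_ceil X)
  rw [abs_of_pos h2]
  exact_mod_cast h4

theorem real_count {X : ℝ} (hX : 1000 ≤ X) : X / 32 ≤ ((RealQ X).ncard : ℝ) := by
  classical
  obtain ⟨N, hN⟩ : ∃ N : ℕ, N = ⌊X / 4⌋₊ + 1 := ⟨_, rfl⟩
  have hex : ∀ a : ℕ, ∃ K : IntermediateField ℚ (AlgebraicClosure ℚ), (1 < a ∧ Squarefree a) →
      ∃ (_ : NumberField K) (r : K), Module.finrank ℚ K = 2 ∧ r ^ 2 = ((a : ℤ) : K) := by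
    intro a
    by_cases ha : 1 < a ∧ Squarefree a
    · obtain ⟨K, hn, r, h⟩ := exists_field ha.1 ha.2
      exact ⟨K, fun _ => ⟨hn, r, h⟩⟩
    · exact ⟨⊥, fun h => absurd h ha⟩
  choose F hF using hex
  obtain ⟨S, hS⟩ : ∃ S : Finset ℕ, S = (range N).filter (fun n => 1 < n ∧ Squarefree n) := ⟨_, rfl⟩
  have hrel : ∀ a ∈ S, 1 < a ∧ Squarefree a ∧ a ≤ ⌊X / 4⌋₊ := by
    intro a ha
    rw [hS, mem_filter, mem_range, hN] at ha
    exact ⟨ha.2.1, ha.2.2, by omega⟩
  have hdisc : ∀ a ∈ S, ∃ (_ : NumberField (F a)) (f : ℕ), f ≠ 0 ∧ 0 < discr (F a) ∧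
      4 * (a : ℤ) = (f : ℤ) ^ 2 * discr (F a) ∧ Module.finrank ℚ (F a) = 2 := by
    intro a ha
    obtain ⟨h1, h2, h3⟩ := hrel a ha
    obtain ⟨hn, r, h4, h5⟩ := hF a ⟨h1, h2⟩
    obtain ⟨f, hf⟩ := disc_rel (not_sq h1 h2) h4 r h5
    have hf0 : f ≠ 0 := by
      rintro rfl
      have : (4 : ℤ) * a = 0 := by rw [hf]; ring
      omega
    have hpos : 0 < discr (F a) := by
      have h6 : 0 < f ^ 2 := by positivity
      have h7 : 0 < f ^ 2 * discr (F a) := by rw [← hf]; positivity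
      by_contra hcon
      push Not at hcon
      nlinarith
    refine ⟨hn, f.natAbs, Int.natAbs_ne_zero.2 hf0, hpos, ?_, h4⟩
    rw [Int.natCast_natAbs, sq_abs]
    exact hf
  have hinj : Set.InjOn F (S : Set ℕ) := by
    intro a ha b hb hab
    obtain ⟨hn, f, f0, _, hf, _⟩ := hdisc a (mem_coe.1 ha)
    obtain ⟨hn', g, g0, _, hg, _⟩ := hdisc b (mem_coe.1 hb)
    have hab' : ∀ (K L : IntermediateField ℚ (AlgebraicClosure ℚ)) (h1 : NumberField K) (h2 : NumberField L),
        K = L → @discr K _ h1 = @discr L _ h2 := by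
      rintro K _ h1 h2 rfl
      rfl
    rw [← hab' (F a) (F b) hn hn' hab] at hg
    obtain ⟨_, ha2, _⟩ := hrel a (mem_coe.1 ha)
    obtain ⟨_, hb2, _⟩ := hrel b (mem_coe.1 hb)
    apply sqf_eq ha2 hb2 f0 g0
    have h3 : (4 : ℤ) * (a * g ^ 2) = 4 * (b * f ^ 2) := by
      linear_combination (g : ℤ) ^ 2 * hf - (f : ℤ) ^ 2 * hg
    have h4 : (a : ℤ) * g ^ 2 = b * f ^ 2 := by linarith
    exact_mod_cast h4
  have hsub : ((S.image F : Finset _) : Set (IntermediateField ℚ (AlgebraicClosure ℚ))) ⊆ RealQ X := by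
    intro K hK
    rw [coe_image] at hK
    obtain ⟨a, ha, rfl⟩ := hK
    obtain ⟨hn, f, f0, hpos, hf, h2⟩ := hdisc a (mem_coe.1 ha)
    obtain ⟨_, _, h5⟩ := hrel a (mem_coe.1 ha)
    refine ⟨hn, h2, hpos, ?_⟩
    have h6 : discr (F a) ≤ 4 * a := by
      rw [hf]
      have : (1 : ℤ) ≤ (f : ℤ) ^ 2 := by
        have : (1 : ℤ) ≤ f := by exact_mod_cast Nat.one_le_iff_ne_zero.2 f0
        nlinarith
      nlinarith
    have h7 : (discr (F a) : ℝ) ≤ 4 * a := by exact_mod_cast h6
    have h8 : (a : ℝ) ≤ X / 4 := by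
      have : (a : ℝ) ≤ (⌊X / 4⌋₊ : ℕ) := by exact_mod_cast h5
      exact this.trans (Nat.floor_le (by linarith))
    linarith
  have hcardS : X / 32 ≤ (S.card : ℝ) := by
    have h1 := sqf_count N
    have h2 : (range N).filter (fun n => Squarefree n) ⊆ S ∪ {1} := by
      intro n hn
      rw [mem_filter] at hn
      rw [mem_union, mem_singleton, hS, mem_filter]
      by_cases h3 : n = 1
      · exact Or.inr h3
      · refine Or.inl ⟨hn.1, ?_, hn.2⟩
        have := hn.2.ne_zero
        omega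
    have h3 : (((range N).filter (fun n => Squarefree n)).card : ℝ) ≤ S.card + 1 := by
      exact_mod_cast (card_le_card h2).trans ((card_union_le _ _).trans (by simp))
    have h4 : X / 4 ≤ N := by
      rw [hN]
      push_cast
      exact (Nat.lt_floor_add_one (X / 4)).le
    linarith
  calc X / 32 ≤ (S.card : ℝ) := hcardS
    _ = ((S.image F).card : ℝ) := by rw [card_image_of_injOn hinj]
    _ ≤ ((RealQ X).ncard : ℝ) := by
        rw [← Set.ncard_coe_finset]
        exact_mod_cast Set.ncard_le_ncard hsub (realQ_finite X)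

/-- many points of degree two with small height and conductor -/
theorem low_many : ∃ c C R0 : ℝ, 0 < c ∧ ∀ R : ℝ, R0 ≤ R →
    c * R ^ 2 ≤ (({x | InLow (Real.log R / 2 + C) (Real.log R) x}).ncard : ℝ) := by
  classical
  obtain ⟨C, hC, h⟩ := real_point
  refine ⟨Real.exp (-(2 * C)) / 32, C, Real.exp (C + 10), by positivity, fun R hR => ?_⟩
  have hR0 : 0 < R := lt_of_lt_of_le (Real.exp_pos _) hR
  have hlogR : C + 10 ≤ Real.log R := by
    rw [Real.le_log_iff_exp_le hR0]
    exact hR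
  obtain ⟨X, hX⟩ : ∃ X : ℝ, X = R ^ 2 * Real.exp (-(2 * C)) := ⟨_, rfl⟩
  have hX0 : 0 < X := by rw [hX]; positivity
  have hlogX : Real.log X = 2 * Real.log R - 2 * C := by
    rw [hX, Real.log_mul (by positivity) (by positivity), Real.log_pow, Real.log_exp]
    push_cast
    ring
  have hX1000 : 1000 ≤ X := by
    rw [← Real.exp_log hX0, hlogX]
    have h1 : Real.exp 20 ≤ Real.exp (2 * Real.log R - 2 * C) := Real.exp_le_exp.2 (by linarith)
    refine le_trans ?_ h1
    have h2 : Real.exp 20 = (Real.exp 1) ^ 20 := by rw [← Real.exp_nat_mul]; norm_num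
    have h3 : (2 : ℝ) ≤ Real.exp 1 := by linarith [Real.add_one_le_exp (1 : ℝ)]
    rw [h2]
    calc (1000 : ℝ) ≤ 2 ^ 20 := by norm_num
      _ ≤ Real.exp 1 ^ 20 := pow_le_pow_left₀ (by norm_num) h3 20
  have hcount := real_count hX1000
  have hex : ∀ K : IntermediateField ℚ (AlgebraicClosure ℚ), ∃ x : AlgebraicClosure ℚ, K ∈ RealQ X →
      (x ∈ K ∧ (∀ q : ℚ, x ≠ algebraMap ℚ (AlgebraicClosure ℚ) q) ∧ InLow (Real.log R / 2 + C) (Real.log R) x) := by
    intro K
    by_cases hK : K ∈ RealQ X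
    · obtain ⟨hn, h1, h2, h3⟩ := hK
      obtain ⟨x, hx1, hx2, hx3⟩ := h K h1 h2
      have hrd : rootDisc K ≤ Real.log R - C := by
        unfold rootDisc
        rw [h1]
        have h4 : (0 : ℝ) < discr K := by exact_mod_cast h2
        have h5 := Real.log_le_log h4 h3
        rw [abs_of_pos h4]
        push_cast
        linarith
      refine ⟨x, fun _ => ⟨x.2, ?_, K, hn, x, rfl, h1, hx1, by linarith, by linarith⟩⟩
      intro q hq
      apply hx1 q
      apply Subtype.ext
      rw [hq]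
      rfl
    · exact ⟨0, fun h => absurd h hK⟩
  choose G hG using hex
  have hinj : Set.InjOn G (RealQ X) := by
    intro K hK L hL hKL
    obtain ⟨_, hK2, _⟩ := id hK
    obtain ⟨_, hL2, _⟩ := id hL
    have h1 := hG K hK
    have h2 := hG L hL
    exact field_unique hK2 hL2 h1.1 (by rw [hKL]; exact h2.1) h1.2.1
  have hsub : G '' RealQ X ⊆ {x | InLow (Real.log R / 2 + C) (Real.log R) x} := by
    rintro x ⟨K, hK, rfl⟩
    exact (hG K hK).2.2
  calc Real.exp (-(2 * C)) / 32 * R ^ 2 = X / 32 := by rw [hX]; ring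
    _ ≤ ((RealQ X).ncard : ℝ) := hcount
    _ = ((G '' RealQ X).ncard : ℝ) := by rw [Set.InjOn.ncard_image hinj]
    _ ≤ _ := by exact_mod_cast Set.ncard_le_ncard hsub (inLow_finite _ _)

end Pool.Agent.H46QF
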