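import Pool.Agent.H46QF.Pts

/-!
Quadratic fields with too many points of small conductor.
-/

set_option autoImplicit false

namespace Pool.Agent.H46QF

open NumberField IsDedekindDomain Finset Pool.Agent.H691R3 Pool.Agent.W223.AK Pool.Agent.R365.QP
open Pool.Agent.W222.UABC

/-- the points of `K` outside `ℚ` with bounded height and conductor -/
def LowK (K : Type) [Field K] [NumberField K] (T W : ℝ) : Set K :=
  {x | (∀ q : ℚ, x ≠ algebraMap ℚ K q) ∧ W222.UABC.height ![x, 1 - x, -1] ≤ T ∧ conductor ![x, 1 - x, -1] ≤ W}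

/-- the same points in the algebraic closure -/
def LowA (K : IntermediateField ℚ (AlgebraicClosure ℚ)) (T W : ℝ) : Set (AlgebraicClosure ℚ) :=
  {x | ∃ (_ : NumberField K) (t : K), (t : AlgebraicClosure ℚ) = x ∧ t ∈ LowK K T W}

lemma lowA_eq (K : IntermediateField ℚ (AlgebraicClosure ℚ)) [hn : NumberField K] (T W : ℝ) :
    LowA K T W = (fun t : K => (t : AlgebraicClosure ℚ)) '' LowK K T W := by
  ext x
  constructor
  · rintro ⟨_, t, h1, h2⟩
    exact ⟨t, h2, h1⟩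
  · rintro ⟨t, h2, h1⟩
    exact ⟨hn, t, h1, h2⟩

lemma lowA_ncard (K : IntermediateField ℚ (AlgebraicClosure ℚ)) [hn : NumberField K] (T W : ℝ) :
    (LowA K T W).ncard = (LowK K T W).ncard := by
  rw [lowA_eq]
  exact Set.ncard_image_of_injective _ Subtype.val_injective

lemma lowA_inLow {K : IntermediateField ℚ (AlgebraicClosure ℚ)} (hK : Module.finrank ℚ K = 2) {T W : ℝ}
    {x : AlgebraicClosure ℚ} (hx : x ∈ LowA K T W) : InLow T W x := by
  obtain ⟨hn, t, h1, h2, h3, h4⟩ := hx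
  exact ⟨K, hn, t, h1, hK, h2, h3, h4⟩

lemma inLow_mono {T T' W W' : ℝ} (hT : T ≤ T') (hW : W ≤ W') {x : AlgebraicClosure ℚ} (hx : InLow T W x) :
    InLow T' W' x := by
  obtain ⟨K, hn, t, h1, h2, h3, h4, h5⟩ := hx
  exact ⟨K, hn, t, h1, h2, h3, h4.trans hT, h5.trans hW⟩

lemma inLow_finite (T W : ℝ) : {x | InLow T W x}.Finite := by
  obtain ⟨C, hC, h⟩ := low_card (θ := 1) (by norm_num)
  refine (ncard_le_of {x | InLow T W x} (Real.exp (2 * W + C * (max T 0 + 1) ^ (1 : ℝ))) fun E hE => ?_).1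
  exact h (max T 0) W E (le_max_right _ _) fun x hx => inLow_mono (le_max_left _ _) le_rfl (hE (Finset.mem_coe.2 hx))

lemma lowA_finite (K : IntermediateField ℚ (AlgebraicClosure ℚ)) (hK : Module.finrank ℚ K = 2) (T W : ℝ) :
    (LowA K T W).Finite :=
  (inLow_finite T W).subset fun _ hx => lowA_inLow hK hx

lemma lowK_finite (K : IntermediateField ℚ (AlgebraicClosure ℚ)) [hn : NumberField K]
    (hK : Module.finrank ℚ K = 2) (T W : ℝ) : (LowK K T W).Finite := by
  have h := lowA_finite K hK T W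
  rw [lowA_eq] at h
  exact Set.Finite.of_finite_image h Subtype.val_injective.injOn

/-- an irrational number lies in only one quadratic field -/
lemma field_unique {K L : IntermediateField ℚ (AlgebraicClosure ℚ)} (hK : Module.finrank ℚ K = 2)
    (hL : Module.finrank ℚ L = 2) {x : AlgebraicClosure ℚ} (hxK : x ∈ K) (hxL : x ∈ L)
    (hx : ∀ q : ℚ, x ≠ algebraMap ℚ (AlgebraicClosure ℚ) q) : K = L := by
  have key : ∀ M : IntermediateField ℚ (AlgebraicClosure ℚ), Module.finrank ℚ M = 2 → x ∈ M →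
      IntermediateField.adjoin ℚ {x} = M := by
    intro M hM hxM
    have : FiniteDimensional ℚ M := Module.finite_of_finrank_pos (by omega)
    have hle : IntermediateField.adjoin ℚ {x} ≤ M := by
      rw [IntermediateField.adjoin_simple_le_iff]
      exact hxM
    have hint : IsIntegral ℚ x := (IsIntegral.of_finite ℚ (⟨x, hxM⟩ : M)).map M.val
    have : FiniteDimensional ℚ (IntermediateField.adjoin ℚ {x}) :=
      IntermediateField.adjoin.finiteDimensional hint
    have h1 : Module.finrank ℚ (IntermediateField.adjoin ℚ {x}) ≠ 1 := by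
      intro h
      rw [IntermediateField.finrank_adjoin_simple_eq_one_iff, IntermediateField.mem_bot] at h
      obtain ⟨q, hq⟩ := h
      exact hx q hq.symm
    have h2 : 0 < Module.finrank ℚ (IntermediateField.adjoin ℚ {x}) := Module.finrank_pos
    apply IntermediateField.eq_of_le_of_finrank_le hle
    omega
  rw [← key K hK hxK, key L hL hxL]

/-- few fields have many points -/
theorem fields_card {θ : ℝ} (hθ : 1 / 2 < θ) : ∃ C : ℝ, 0 < C ∧
    ∀ (T W m : ℝ) (B : Finset (IntermediateField ℚ (AlgebraicClosure ℚ))), 0 ≤ T →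
      (∀ K ∈ B, Module.finrank ℚ K = 2 ∧ m ≤ ((LowA K T W).ncard : ℝ)) →
      m * B.card ≤ Real.exp (2 * W + C * (T + 1) ^ θ) := by
  classical
  obtain ⟨C, hC, h⟩ := low_card hθ
  refine ⟨C, hC, fun T W m B hT hB => ?_⟩
  have hfin : ∀ K : IntermediateField ℚ (AlgebraicClosure ℚ), ∃ F : Finset (AlgebraicClosure ℚ),
      K ∈ B → ((F : Set (AlgebraicClosure ℚ)) = LowA K T W) := by
    intro K
    by_cases hK : K ∈ B
    · exact ⟨(lowA_finite K (hB K hK).1 T W).toFinset, fun _ => by simp⟩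
    · exact ⟨∅, fun h => absurd h hK⟩
  choose F hF using hfin
  have hdisj : (B : Set (IntermediateField ℚ (AlgebraicClosure ℚ))).PairwiseDisjoint F := by
    intro K hK L hL hKL
    rw [Function.onFun, Finset.disjoint_left]
    intro x hx hx'
    apply hKL
    have h1 : x ∈ LowA K T W := by rw [← hF K hK]; exact hx
    have h2 : x ∈ LowA L T W := by rw [← hF L hL]; exact hx'
    obtain ⟨_, t, ht1, ht2⟩ := h1
    obtain ⟨_, u, hu1, _⟩ := h2
    refine field_unique (hB K hK).1 (hB L hL).1 (x := x) (ht1 ▸ t.2) (hu1 ▸ u.2) ?_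
    intro q hq
    apply ht2.1 q
    apply Subtype.ext
    rw [ht1, hq]
    rfl
  have h1 : (B.biUnion F).card = ∑ K ∈ B, (F K).card := card_biUnion hdisj
  have h2 : m * B.card ≤ ((B.biUnion F).card : ℝ) := by
    rw [h1, mul_comm, ← nsmul_eq_mul, ← sum_const]
    push_cast
    apply sum_le_sum
    intro K hK
    refine (hB K hK).2.trans (le_of_eq ?_)
    rw [← hF K hK, Set.ncard_coe_finset]
  refine h2.trans (h T W _ hT fun x hx => ?_)
  rw [mem_biUnion] at hx
  obtain ⟨K, hK, hxK⟩ := hx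
  apply lowA_inLow (hB K hK).1
  rw [← hF K hK]
  exact hxK

lemma growth {A b γ : ℝ} (hA : 0 ≤ A) (hb : 0 < b) (hγ0 : 0 < γ) (hγ : γ < 1) :
    ∃ K0 : ℝ, ∀ y : ℝ, 0 ≤ y → A * y ^ γ ≤ b * y + K0 := by
  obtain ⟨y0, hy0⟩ : ∃ y0 : ℝ, y0 = ((A + 1) / b) ^ (1 / (1 - γ)) := ⟨_, rfl⟩
  have hpos : 0 < (A + 1) / b := by positivity
  have hy0p : 0 < y0 := by rw [hy0]; positivity
  have h1 : y0 ^ (γ - 1) = b / (A + 1) := by
    rw [hy0, ← Real.rpow_mul hpos.le]
    have : 1 / (1 - γ) * (γ - 1) = -1 := by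
      have : (1 : ℝ) - γ ≠ 0 := by linarith
      field_simp
      ring
    rw [this, Real.rpow_neg_one, inv_div]
  refine ⟨A * y0 ^ γ, fun y hy => ?_⟩
  rcases le_or_gt y0 y with h | h
  · have hyp : 0 < y := by linarith
    have h2 : y ^ γ = y * y ^ (γ - 1) := by
      nth_rewrite 2 [← Real.rpow_one y]
      rw [← Real.rpow_add hyp]
      congr 1
      ring
    have h3 : y ^ (γ - 1) ≤ y0 ^ (γ - 1) := Real.rpow_le_rpow_of_nonpos hy0p h (by linarith)
    have h4 : A * y ^ γ ≤ b * y := by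
      rw [h2]
      calc A * (y * y ^ (γ - 1)) ≤ A * (y * (b / (A + 1))) := by
            rw [h1] at h3
            gcongr
        _ = b * y * (A / (A + 1)) := by ring
        _ ≤ b * y * 1 := by
            apply mul_le_mul_of_nonneg_left _ (by positivity)
            rw [div_le_one (by linarith)]
            linarith
        _ = b * y := mul_one _
    have h5 : 0 ≤ A * y0 ^ γ := by positivity
    linarith
  · have h2 : A * y ^ γ ≤ A * y0 ^ γ := by
      apply mul_le_mul_of_nonneg_left _ hA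
      exact Real.rpow_le_rpow hy h.le hγ0.le
    have h3 : 0 ≤ b * y := by positivity
    linarith

/-- the number of the points of `K` outside `ℚ` of small height and conductor is small -/
def Few (ε : ℝ) (K : Type) [Field K] [NumberField K] : Prop :=
  ∀ W : ℝ, 0 ≤ W → ((LowK K (rootDisc K ^ (2 - ε)) W).ncard : ℝ) ≤ Real.exp (2 * W - (2 - ε) * rootDisc K)

lemma rootDisc_nonneg (K : Type) [Field K] [NumberField K] : 0 ≤ rootDisc K :=
  div_nonneg (Real.log_nonneg one_le_disc) (Nat.cast_nonneg _)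

theorem bad_card {ε : ℝ} (hε : 0 < ε) (hε1 : ε ≤ 1) : ∃ C : ℝ, 0 < C ∧ ∀ X : ℝ, 1 ≤ X →
    ∀ B : Finset (IntermediateField ℚ (AlgebraicClosure ℚ)),
      (∀ K ∈ B, ∃ _ : NumberField K, Module.finrank ℚ K = 2 ∧ |(NumberField.discr K : ℝ)| ≤ X ∧ ¬ Few ε K) →
      (B.card : ℝ) ≤ C * X ^ (1 - ε / 4) := by
  classical
  obtain ⟨θ, hθd⟩ : ∃ θ : ℝ, θ = 1 / 2 + ε / 8 := ⟨_, rfl⟩
  have hθ : 1 / 2 < θ := by rw [hθd]; linarith
  obtain ⟨C, hC, h⟩ := fields_card hθ
  have hγ0 : 0 < (2 - ε) * θ := by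
    apply mul_pos <;> linarith
  have hγ1 : (2 - ε) * θ < 1 := by rw [hθd]; nlinarith
  obtain ⟨K0, hK0⟩ := growth (A := (C + 2) * 2 ^ θ) (b := ε / 4) (by positivity) (by positivity) hγ0 hγ1
  refine ⟨5 * Real.exp (2 + ε / 4 + K0), by positivity, fun X hX B hB => ?_⟩
  have hX0 : 0 < X := by linarith
  obtain ⟨L, hL⟩ : ∃ L : ℝ, L = Real.log X := ⟨_, rfl⟩
  have hL0 : 0 ≤ L := by rw [hL]; exact Real.log_nonneg hX
  obtain ⟨T, hT⟩ : ∃ T : ℝ, T = (L / 2) ^ (2 - ε) := ⟨_, rfl⟩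
  have hT0 : 0 ≤ T := by rw [hT]; positivity
  have hlog2 : Real.log 2 ≤ 1 := by
    have := Real.log_le_sub_one_of_pos (show (0 : ℝ) < 2 by norm_num)
    linarith
  have hlog20 : 0 < Real.log 2 := Real.log_pos (by norm_num)
  obtain ⟨W0, hW0⟩ : ∃ W0 : ℝ, W0 = 3 * T + 3 * Real.log 2 := ⟨_, rfl⟩
  have hW00 : 0 ≤ W0 := by rw [hW0]; positivity
  obtain ⟨J, hJ⟩ : ∃ J : ℕ, J = ⌈W0⌉₊ + 1 := ⟨_, rfl⟩
  -- every bad field has many points for one of the parameters `j < J`
  have hmain : ∀ K ∈ B, ∃ j ∈ range J, Module.finrank ℚ K = 2 ∧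
      Real.exp (2 * j - 2 - (1 - ε / 2) * L) ≤ ((LowA K T j).ncard : ℝ) := by
    intro K hK
    obtain ⟨hn, h1, h2, h3⟩ := hB K hK
    have hrd0 := rootDisc_nonneg K
    have hrd : rootDisc K ≤ L / 2 := by
      unfold rootDisc
      rw [h1, hL]
      push_cast
      apply div_le_div_of_nonneg_right _ (by norm_num)
      apply Real.log_le_log _ h2
      have := one_le_disc (K := K)
      linarith
    unfold Few at h3
    push Not at h3
    obtain ⟨W, hW, h4⟩ := h3
    have hTK : rootDisc K ^ (2 - ε) ≤ T := by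
      rw [hT]
      exact Real.rpow_le_rpow hrd0 hrd (by linarith)
    obtain ⟨W', hW'⟩ : ∃ W' : ℝ, W' = min W W0 := ⟨_, rfl⟩
    have hW'0 : 0 ≤ W' := by rw [hW']; exact le_min hW hW00
    have hsub : LowK K (rootDisc K ^ (2 - ε)) W ⊆ LowK K T (⌈W'⌉₊ : ℕ) := by
      rintro x ⟨k1, k2, k3⟩
      refine ⟨k1, k2.trans hTK, ?_⟩
      have hx0 : x ≠ 0 := fun h0 => k1 0 (by rw [h0, map_zero])
      have hx1 : x ≠ 1 := fun h0 => k1 1 (by rw [h0, map_one])
      have k4 := cond_le h1 hx0 hx1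
      refine le_trans ?_ (Nat.le_ceil W')
      rw [hW']
      apply le_min k3
      rw [hW0]
      have := k2.trans hTK
      linarith
    refine ⟨⌈W'⌉₊, ?_, h1, ?_⟩
    · rw [mem_range, hJ, Nat.lt_succ_iff]
      apply Nat.ceil_mono
      rw [hW']
      exact min_le_right _ _
    · rw [lowA_ncard]
      have h5 : ((LowK K (rootDisc K ^ (2 - ε)) W).ncard : ℝ) ≤ ((LowK K T (⌈W'⌉₊ : ℕ)).ncard : ℝ) := by
        exact_mod_cast Set.ncard_le_ncard hsub (lowK_finite K h1 _ _)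
      refine le_trans (Real.exp_le_exp.2 ?_) (h4.le.trans h5)
      have h6 : ((⌈W'⌉₊ : ℕ) : ℝ) < W' + 1 := Nat.ceil_lt_add_one hW'0
      have h7 : W' ≤ W := by rw [hW']; exact min_le_left _ _
      have h8 : (2 - ε) * rootDisc K ≤ (2 - ε) * (L / 2) := mul_le_mul_of_nonneg_left hrd (by linarith)
      have h9 : (2 - ε) * (L / 2) = (1 - ε / 2) * L := by ring
      linarith
  -- the fields for one parameter
  have hone : ∀ j ∈ range J, ((B.filter fun K : IntermediateField ℚ (AlgebraicClosure ℚ) => Module.finrank ℚ K = 2 ∧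
      Real.exp (2 * j - 2 - (1 - ε / 2) * L) ≤ ((LowA K T j).ncard : ℝ)).card : ℝ) ≤
        Real.exp (2 + (1 - ε / 2) * L + C * (T + 1) ^ θ) := by
    intro j _
    have h1 := h T j (Real.exp (2 * j - 2 - (1 - ε / 2) * L)) (B.filter fun K : IntermediateField ℚ (AlgebraicClosure ℚ) => Module.finrank ℚ K = 2 ∧
      Real.exp (2 * j - 2 - (1 - ε / 2) * L) ≤ ((LowA K T j).ncard : ℝ)) hT0 (fun K hK => by
        rw [mem_filter] at hK
        exact hK.2)
    have h2 : (0 : ℝ) < Real.exp (2 * j - 2 - (1 - ε / 2) * L) := Real.exp_pos _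
    rw [mul_comm, ← le_div_iff₀ h2, ← Real.exp_sub] at h1
    refine h1.trans (Real.exp_le_exp.2 (le_of_eq ?_))
    ring
  have hcard : (B.card : ℝ) ≤ J * Real.exp (2 + (1 - ε / 2) * L + C * (T + 1) ^ θ) := by
    have hcov : B ⊆ (range J).biUnion fun j => B.filter fun K : IntermediateField ℚ (AlgebraicClosure ℚ) => Module.finrank ℚ K = 2 ∧
        Real.exp (2 * j - 2 - (1 - ε / 2) * L) ≤ ((LowA K T j).ncard : ℝ) := by
      intro K hK
      obtain ⟨j, hj, h1⟩ := hmain K hK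
      rw [mem_biUnion]
      exact ⟨j, hj, mem_filter.2 ⟨hK, h1⟩⟩
    have h1 : (B.card : ℝ) ≤ ∑ j ∈ range J, ((B.filter fun K : IntermediateField ℚ (AlgebraicClosure ℚ) => Module.finrank ℚ K = 2 ∧
        Real.exp (2 * j - 2 - (1 - ε / 2) * L) ≤ ((LowA K T j).ncard : ℝ)).card : ℝ) := by
      exact_mod_cast (card_le_card hcov).trans card_biUnion_le
    refine h1.trans ((sum_le_sum hone).trans (le_of_eq ?_))
    rw [sum_const, card_range, nsmul_eq_mul]
  have hT1 : 1 ≤ T + 1 := by linarith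
  have hJle : (J : ℝ) ≤ 5 * Real.exp (2 * (T + 1) ^ θ) := by
    have h1 : (J : ℝ) ≤ 5 * (T + 1) := by
      rw [hJ]
      push_cast
      have h2 : ((⌈W0⌉₊ : ℕ) : ℝ) < W0 + 1 := Nat.ceil_lt_add_one hW00
      linarith
    have h2 : T + 1 ≤ Real.exp (2 * (T + 1) ^ θ) := by
      have h3 : (T + 1) ^ (1 / 2 : ℝ) ≤ (T + 1) ^ θ := Real.rpow_le_rpow_of_exponent_le hT1 hθ.le
      have h4 : (T + 1) ^ (1 / 2 : ℝ) * (T + 1) ^ (1 / 2 : ℝ) = T + 1 := by
        rw [← Real.rpow_add (by linarith)]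
        norm_num
      have h5 := Real.add_one_le_exp ((T + 1) ^ (1 / 2 : ℝ))
      have h6 : (0 : ℝ) ≤ (T + 1) ^ (1 / 2 : ℝ) := by positivity
      calc T + 1 = (T + 1) ^ (1 / 2 : ℝ) * (T + 1) ^ (1 / 2 : ℝ) := h4.symm
        _ ≤ Real.exp ((T + 1) ^ (1 / 2 : ℝ)) * Real.exp ((T + 1) ^ (1 / 2 : ℝ)) := by
            apply mul_le_mul (by linarith) (by linarith) h6 (Real.exp_pos _).le
        _ = Real.exp (2 * (T + 1) ^ (1 / 2 : ℝ)) := by rw [← Real.exp_add]; congr 1; ring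
        _ ≤ _ := Real.exp_le_exp.2 (by linarith)
    linarith
  have hTθ : (T + 1) ^ θ ≤ 2 ^ θ * (L + 1) ^ ((2 - ε) * θ) := by
    have h1 : T + 1 ≤ 2 * (L + 1) ^ (2 - ε) := by
      have h2 : T ≤ (L + 1) ^ (2 - ε) := by
        rw [hT]
        exact Real.rpow_le_rpow (by positivity) (by linarith) (by linarith)
      have h3 : 1 ≤ (L + 1) ^ (2 - ε) := Real.one_le_rpow (by linarith) (by linarith)
      linarith
    calc (T + 1) ^ θ ≤ (2 * (L + 1) ^ (2 - ε)) ^ θ := Real.rpow_le_rpow (by linarith) h1 (by linarith)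
      _ = 2 ^ θ * (L + 1) ^ ((2 - ε) * θ) := by
          rw [Real.mul_rpow (by norm_num) (by positivity), ← Real.rpow_mul (by linarith)]
  have hgr := hK0 (L + 1) (by linarith)
  have hexp : 2 * (T + 1) ^ θ + (2 + (1 - ε / 2) * L + C * (T + 1) ^ θ) ≤ 2 + ε / 4 + K0 + (1 - ε / 4) * L := by
    have h1 : (C + 2) * (T + 1) ^ θ ≤ (C + 2) * (2 ^ θ * (L + 1) ^ ((2 - ε) * θ)) :=
      mul_le_mul_of_nonneg_left hTθ (by linarith)
    nlinarith
  calc (B.card : ℝ) ≤ J * Real.exp (2 + (1 - ε / 2) * L + C * (T + 1) ^ θ) := hcard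
    _ ≤ 5 * Real.exp (2 * (T + 1) ^ θ) * Real.exp (2 + (1 - ε / 2) * L + C * (T + 1) ^ θ) :=
        mul_le_mul_of_nonneg_right hJle (Real.exp_pos _).le
    _ = 5 * Real.exp (2 * (T + 1) ^ θ + (2 + (1 - ε / 2) * L + C * (T + 1) ^ θ)) := by
        rw [Real.exp_add (2 * (T + 1) ^ θ)]; ring
    _ ≤ 5 * Real.exp (2 + ε / 4 + K0 + (1 - ε / 4) * L) := by
        apply mul_le_mul_of_nonneg_left (Real.exp_le_exp.2 hexp) (by norm_num)
    _ = 5 * Real.exp (2 + ε / 4 + K0) * X ^ (1 - ε / 4) := by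
        rw [Real.exp_add (2 + ε / 4 + K0), Real.rpow_def_of_pos hX0, ← hL, mul_comm (1 - ε / 4) L]
        ring

end Pool.Agent.H46QF
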