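import Pool.Agent.H46QF.Rad
import Pool.Agent.W222.UABC.Final

/-!
Points with small radical in the fields of degree `n`: the count, with an explicit dependence on the height.
-/

set_option autoImplicit false

namespace Pool.Agent.H46QF

open NumberField IsDedekindDomain Finset Pool.Agent.H691R3 Pool.Agent.W223.AK
open Pool.Agent.W222.UABC Polynomial

/-- points with small radical in the fields of degree `n` -/
theorem few_x2 (n : ℕ) (hn : 2 ≤ n) {θ : ℝ} (hθ : 1 / 2 < θ) : ∃ C : ℝ, 0 < C ∧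
    ∀ (X Y : ℝ) (E : Finset (AlgebraicClosure ℚ)), 0 ≤ X → (∀ x ∈ E, Good n X Y x) →
      (E.card : ℝ) ≤ Real.exp (((n - 2 : ℕ) : ℝ) * X + Y + C * (X + 1) ^ θ) := by
  classical
  obtain ⟨D, hD, htri⟩ := tri_card2 hθ
  have hl2 : 0 ≤ Real.log 2 := Real.log_nonneg (by norm_num)
  have hl2' : Real.log 2 ≤ 1 := by
    have := Real.log_le_sub_one_of_pos (show (0 : ℝ) < 2 by norm_num)
    linarith
  have hn0 : (1 : ℝ) ≤ n := by exact_mod_cast (by omega : 1 ≤ n)
  refine ⟨D * (n + 1) ^ θ + n * (4 * (3 * (n : ℝ) ^ n) ^ (n - 2)),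
    by positivity, ?_⟩
  intro X Y E hX hE
  have hex : ∀ x : AlgebraicClosure ℚ, ∃ N z χ, x ∈ E → Dat n X Y x N z χ := by
    intro x
    by_cases hx : x ∈ E
    · obtain ⟨N, z, χ, h⟩ := (hE x hx).dat
      exact ⟨N, z, χ, fun _ => h⟩
    · exact ⟨(0, 0, 0), fun _ => 0, 0, fun h => absurd h hx⟩
  choose N z χ hd using hex
  set Φ : AlgebraicClosure ℚ → (ℕ × ℕ × ℕ) × ((Bool × Bool) × (Fin (n - 2) → ℤ)) := fun x =>
    (N x, ((decide (0 ≤ z x 0), decide (0 ≤ z x (-1))), fun i => z x ((i : ℤ) + 1))) with hΦ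
  have hfib : ∀ b ∈ E.image Φ, (E.filter fun x => Φ x = b).card ≤ n := by
    intro b hb
    obtain ⟨x0, hx0, rfl⟩ := Finset.mem_image.1 hb
    have d0 := hd x0 hx0
    have hsame : ∀ x ∈ E, Φ x = Φ x0 → χ x = χ x0 := by
      intro x hx hxx
      have d := hd x hx
      rw [hΦ] at hxx
      simp only [Prod.mk.injEq] at hxx
      obtain ⟨e1, ⟨e2, e3⟩, e4⟩ := hxx
      have hz0 : z x 0 = z x0 0 := by
        have a1 := d.z0
        have a2 := d0.z0
        rw [e1, ← a2] at a1
        have e2' : (0 ≤ z x 0) ↔ (0 ≤ z x0 0) := by simpa using e2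
        by_cases h : 0 ≤ z x 0
        · rw [abs_of_nonneg h, abs_of_nonneg (e2'.1 h)] at a1
          exact a1
        · have h' : ¬ 0 ≤ z x0 0 := fun h2 => h (e2'.2 h2)
          rw [abs_of_neg (not_le.1 h), abs_of_neg (not_le.1 h')] at a1
          linarith
      have hz1 : z x (-1) = z x0 (-1) := by
        have a1 := d.z1
        have a2 := d0.z1
        rw [e1, ← a2] at a1
        have e3' : (0 ≤ z x (-1)) ↔ (0 ≤ z x0 (-1)) := by simpa using e3
        by_cases h : 0 ≤ z x (-1)
        · rw [abs_of_nonneg h, abs_of_nonneg (e3'.1 h)] at a1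
          exact a1
        · have h' : ¬ 0 ≤ z x0 (-1) := fun h2 => h (e3'.2 h2)
          rw [abs_of_neg (not_le.1 h), abs_of_neg (not_le.1 h')] at a1
          linarith
      have hN1 : ((N x).2.1 : ℚ) ≠ 0 := by exact_mod_cast d.pos.2.1
      have heval : ∀ a : ℤ, z x a = z x0 a → (χ x).eval (a : ℚ) = (χ x0).eval (a : ℚ) := by
        intro a ha
        have v1 := d.val a
        have v2 := d0.val a
        rw [ha, v2, ← e1] at v1
        exact (mul_left_cancel₀ hN1 v1).symm
      set s : Finset ℚ := (Finset.range n).image fun k : ℕ => ((k : ℚ) - 1) with hs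
      have hscard : s.card = n := by
        rw [hs, Finset.card_image_of_injective, Finset.card_range]
        intro a b hab
        have : (a : ℚ) = b := by
          simp only at hab
          linarith
        exact_mod_cast this
      have hdx : (χ x).degree = n := by
        rw [Polynomial.degree_eq_natDegree d.monic.ne_zero, d.deg]
      have hdx0 : (χ x0).degree = n := by
        rw [Polynomial.degree_eq_natDegree d0.monic.ne_zero, d0.deg]
      refine Polynomial.eq_of_degree_le_of_eval_finset_eq s ?_ ?_ ?_ ?_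
      · rw [hscard, hdx]
      · rw [hdx, hdx0]
      · rw [d.monic.leadingCoeff, d0.monic.leadingCoeff]
      · intro q hq
        obtain ⟨k, hk, rfl⟩ := Finset.mem_image.1 hq
        rw [Finset.mem_range] at hk
        have hk' : ((k : ℚ) - 1) = (((k : ℤ) - 1 : ℤ) : ℚ) := by push_cast; rfl
        rw [hk']
        apply heval
        rcases k with _ | _ | k
        · simpa using hz1
        · simpa using hz0
        · have h1 := congrFun e4 ⟨k, by omega⟩
          simp only at h1
          have h2 : ((k + 1 + 1 : ℕ) : ℤ) - 1 = (k : ℤ) + 1 := by push_cast; ring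
          rw [h2]
          exact h1
    have hsub : (E.filter fun x => Φ x = Φ x0) ⊆ ((χ x0).aroots (AlgebraicClosure ℚ)).toFinset := by
      intro x hx
      obtain ⟨hxE, hxx⟩ := Finset.mem_filter.1 hx
      rw [Multiset.mem_toFinset, Polynomial.mem_aroots]
      refine ⟨d0.monic.ne_zero, ?_⟩
      rw [← hsame x hxE hxx]
      exact (hd x hxE).root
    refine (Finset.card_le_card hsub).trans ((Multiset.toFinset_card_le _).trans ?_)
    refine (Polynomial.card_roots' _).trans ?_
    rw [Polynomial.natDegree_map, d0.deg]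
  have h1 := Finset.card_le_mul_card_image E n hfib
  set M : ℤ := ⌊(n : ℝ) ^ n * Real.exp X⌋ with hM
  have hM1 : (1 : ℝ) ≤ (n : ℝ) ^ n * Real.exp X := by
    have a1 : (1 : ℝ) ≤ (n : ℝ) ^ n := one_le_pow₀ hn0
    have a2 : 1 ≤ Real.exp X := Real.one_le_exp hX
    nlinarith
  have hM0 : 0 ≤ M := Int.floor_nonneg.2 (by linarith)
  have himg : E.image Φ ⊆ (E.image N) ×ˢ ((Finset.univ : Finset (Bool × Bool)) ×ˢ
      Fintype.piFinset (fun _ : Fin (n - 2) => Finset.Icc (-M) M)) := by
    intro b hb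
    obtain ⟨x, hx, rfl⟩ := Finset.mem_image.1 hb
    have d := hd x hx
    refine Finset.mem_product.2 ⟨Finset.mem_image_of_mem _ hx,
      Finset.mem_product.2 ⟨Finset.mem_univ _, ?_⟩⟩
    rw [Fintype.mem_piFinset]
    intro i
    have hb := d.bd ((i : ℤ) + 1)
    have hi : ((i : ℕ) : ℝ) + 2 ≤ n := by
      have := i.2
      exact_mod_cast (by omega : (i : ℕ) + 2 ≤ n)
    have hb2 : |(z x ((i : ℤ) + 1) : ℝ)| ≤ (n : ℝ) ^ n * Real.exp X := by
      refine hb.trans (mul_le_mul_of_nonneg_right ?_ (Real.exp_pos _).le)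
      refine pow_le_pow_left₀ (by positivity) ?_ n
      push_cast
      rw [abs_of_nonneg (by positivity)]
      linarith
    rw [Finset.mem_Icc]
    have hb3 := abs_le.1 hb2
    constructor
    · rw [hM]
      have h3 : -(z x ((i : ℤ) + 1)) ≤ ⌊(n : ℝ) ^ n * Real.exp X⌋ := by
        rw [Int.le_floor]
        push_cast
        linarith [hb3.1]
      linarith
    · rw [hM, Int.le_floor]
      exact hb3.2
  have h2 := Finset.card_le_card himg
  rw [Finset.card_product, Finset.card_product, Fintype.card_piFinset, Finset.prod_const,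
    Finset.card_univ, Finset.card_univ, Fintype.card_fin, Int.card_Icc] at h2
  have hT : ((E.image N).card : ℝ) ≤ Real.exp (Y + D * (X + n * Real.log 2 + 1) ^ θ) := by
    refine htri _ _ _ (by positivity) ?_
    intro t ht'
    obtain ⟨x, hx, rfl⟩ := Finset.mem_image.1 ht'
    have d := hd x hx
    exact ⟨d.pos, d.rad, d.size⟩
  have hMc : (((M + 1 - -M).toNat : ℕ) : ℝ) ≤ 3 * (n : ℝ) ^ n * Real.exp X := by
    have a1 : (((M + 1 - -M).toNat : ℕ) : ℤ) = M + 1 - -M := Int.toNat_of_nonneg (by omega)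
    have a2 : (((M + 1 - -M).toNat : ℕ) : ℝ) = 2 * (M : ℝ) + 1 := by
      have a3 : ((((M + 1 - -M).toNat : ℕ) : ℤ) : ℝ) = ((M + 1 - -M : ℤ) : ℝ) := by rw [a1]
      rw [Int.cast_natCast] at a3
      rw [a3]
      push_cast
      ring
    rw [a2]
    have a4 : (M : ℝ) ≤ (n : ℝ) ^ n * Real.exp X := Int.floor_le _
    nlinarith
  have h4 : (Fintype.card (Bool × Bool) : ℝ) = 4 := by
    rw [Fintype.card_prod, Fintype.card_bool]
    norm_num
  have hθ1 : (1 : ℝ) ≤ (X + 1) ^ θ := Real.one_le_rpow (by linarith) (by linarith)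
  have hpow : (X + n * Real.log 2 + 1) ^ θ ≤ (n + 1) ^ θ * (X + 1) ^ θ := by
    rw [← Real.mul_rpow (by positivity) (by linarith)]
    apply Real.rpow_le_rpow (by positivity) _ (by linarith)
    nlinarith
  obtain ⟨G, hG⟩ : ∃ G : ℝ, G = n * (4 * (3 * (n : ℝ) ^ n) ^ (n - 2)) := ⟨_, rfl⟩
  have hG0 : 0 < G := by rw [hG]; positivity
  rw [← hG]
  calc (E.card : ℝ) ≤ n * ((E.image Φ).card : ℝ) := by exact_mod_cast h1
    _ ≤ n * (((E.image N).card : ℝ) * ((Fintype.card (Bool × Bool) : ℝ) *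
          (((M + 1 - -M).toNat : ℕ) : ℝ) ^ (n - 2))) := by
        refine mul_le_mul_of_nonneg_left ?_ (by positivity)
        exact_mod_cast h2
    _ ≤ n * (Real.exp (Y + D * (X + n * Real.log 2 + 1) ^ θ) * (4 *
          (3 * (n : ℝ) ^ n * Real.exp X) ^ (n - 2))) := by
        rw [h4]
        gcongr
    _ = G * Real.exp (((n - 2 : ℕ) : ℝ) * X + (Y + D * (X + n * Real.log 2 + 1) ^ θ)) := by
        rw [Real.exp_add (((n - 2 : ℕ) : ℝ) * X), mul_pow _ (Real.exp X), ← Real.exp_nat_mul, hG]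
        ring
    _ ≤ Real.exp G * Real.exp (((n - 2 : ℕ) : ℝ) * X + (Y + D * (X + n * Real.log 2 + 1) ^ θ)) := by
        apply mul_le_mul_of_nonneg_right _ (Real.exp_pos _).le
        linarith [Real.add_one_le_exp G]
    _ = Real.exp (G + (((n - 2 : ℕ) : ℝ) * X + (Y + D * (X + n * Real.log 2 + 1) ^ θ))) := by
        rw [Real.exp_add G]
    _ ≤ _ := by
        apply Real.exp_le_exp.2
        have h5 := mul_le_mul_of_nonneg_left hpow hD.le
        nlinarith


/-- the points of `K` which generate `K`, with bounded height and conductor -/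
def GenK (K : Type) [Field K] [NumberField K] (T W : ℝ) : Set K :=
  {x | IntermediateField.adjoin ℚ {x} = ⊤ ∧ W222.UABC.height ![x, 1 - x, -1] ≤ T ∧
    W222.UABC.conductor ![x, 1 - x, -1] ≤ W}

/-- the algebraic numbers of degree `n` with bounded height and conductor -/
def InGen (n : ℕ) (T W : ℝ) (x : AlgebraicClosure ℚ) : Prop :=
  ∃ (K : IntermediateField ℚ (AlgebraicClosure ℚ)) (_ : NumberField K) (t : K),
    (t : AlgebraicClosure ℚ) = x ∧ Module.finrank ℚ K = n ∧ t ∈ GenK K T W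

lemma gen_irr {K : Type} [Field K] [NumberField K] (hK : 2 ≤ Module.finrank ℚ K) {x : K}
    (hx : IntermediateField.adjoin ℚ {x} = ⊤) (q : ℚ) : x ≠ algebraMap ℚ K q := by
  intro h
  have h1 : IntermediateField.adjoin ℚ {x} = ⊥ := by
    rw [IntermediateField.adjoin_simple_eq_bot_iff, h]
    exact IntermediateField.algebraMap_mem _ q
  have h2 : Module.finrank ℚ K = 1 := by
    rw [← IntermediateField.bot_eq_top_iff_finrank_eq_one, ← h1, hx]
  omega

theorem gen_card (n : ℕ) (hn : 2 ≤ n) {θ : ℝ} (hθ : 1 / 2 < θ) : ∃ C : ℝ, 0 < C ∧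
    ∀ (T W : ℝ) (E : Finset (AlgebraicClosure ℚ)), 0 ≤ T → (∀ x ∈ E, InGen n T W x) →
      (E.card : ℝ) ≤ Real.exp (n * (n - 2) * T + n * W + C * (T + 1) ^ θ) := by
  classical
  obtain ⟨C, hC, h⟩ := few_x2 n hn hθ
  have hn0 : (1 : ℝ) ≤ n := by exact_mod_cast (by omega : 1 ≤ n)
  refine ⟨C * n ^ θ, by positivity, ?_⟩
  intro T W E hT hE
  have hne : ∀ x ∈ E, x ≠ 1 := by
    intro x hx h1
    obtain ⟨K, _, t, htx, hK, hgen, _⟩ := hE x hx
    apply gen_irr (by omega) hgen 1
    rw [map_one]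
    apply Subtype.ext
    rw [htx, h1]
    rfl
  have h1 := h (n * T) (n * W) (E.image fun x => x / (1 - x)) (by positivity) ?_
  · rw [Finset.card_image_of_injOn (inj_frac E hne)] at h1
    refine h1.trans (Real.exp_le_exp.2 ?_)
    have h4 : ((n : ℝ) * T + 1) ^ θ ≤ (n : ℝ) ^ θ * (T + 1) ^ θ := by
      rw [← Real.mul_rpow (by linarith) (by linarith)]
      apply Real.rpow_le_rpow (by positivity) (by linarith) (by linarith)
    have h5 := mul_le_mul_of_nonneg_left h4 hC.le
    have h6 : ((n - 2 : ℕ) : ℝ) = (n : ℝ) - 2 := by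
      rw [Nat.cast_sub hn]
      norm_num
    rw [h6]
    nlinarith
  · intro y hy
    rw [Finset.mem_image] at hy
    obtain ⟨x, hx, rfl⟩ := hy
    obtain ⟨K, hnf, t, htx, hK, hgen, hh, hc⟩ := hE x hx
    have hirr := gen_irr (by omega) hgen
    have ht0 : t ≠ 0 := fun h0 => hirr 0 (by rw [h0, map_zero])
    have ht1 : t ≠ 1 := fun h0 => hirr 1 (by rw [h0, map_one])
    rw [← htx]
    exact good_of K t hK ht0 ht1 (mul_le_mul_of_nonneg_left hh (by linarith))
      (mul_le_mul_of_nonneg_left hc (by linarith))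

end Pool.Agent.H46QF
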