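import Pool.Agent.H46QF.Rad
import Pool.Agent.R365.QP.Jup2
import Pool.Agent.R365.QP.Up
import Pool.Agent.W222.UABC.Final

/-!
Points of degree two with small radical: the count, with an explicit dependence on the height.
-/

set_option autoImplicit false

namespace Pool.Agent.H46QF

open NumberField IsDedekindDomain Finset Pool.Agent.H691R3 Pool.Agent.W223.AK Pool.Agent.R365.QP
open Pool.Agent.W222.UABC

/-- triples of integers with small radicals -/
theorem int_card {θ : ℝ} (hθ : 1 / 2 < θ) : ∃ C : ℝ, 0 < C ∧ ∀ (X W : ℝ) (E : Finset (ℤ × ℤ × ℤ)), 0 ≤ X →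
    (∀ p ∈ E, p.1 ≠ 0 ∧ p.2.2 ≠ 0 ∧ p.1 - p.2.1 + p.2.2 ≠ 0 ∧ |(p.1 : ℝ)| ≤ 9 * Real.exp X ∧
      |(p.2.1 : ℝ)| ≤ 9 * Real.exp X ∧ |(p.2.2 : ℝ)| ≤ 9 * Real.exp X ∧
      (rad p.1 : ℝ) * rad p.2.2 * rad (p.1 - p.2.1 + p.2.2) ≤ Real.exp W) →
    (E.card : ℝ) ≤ Real.exp (W + C * (X + 1) ^ θ) := by
  classical
  obtain ⟨C, hC, h⟩ := tri_card2 hθ
  refine ⟨C * 28 ^ θ + Real.log 8, by positivity, ?_⟩
  intro X W E hX hE
  set f : ℤ × ℤ × ℤ → ℕ × ℕ × ℕ := fun p => (p.1.natAbs, p.2.2.natAbs, (p.1 - p.2.1 + p.2.2).natAbs) with hf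
  have h1 : E.card ≤ 8 * (E.image f).card := by
    refine Finset.card_le_mul_card_image E 8 ?_
    rintro ⟨a, b, c⟩ _
    have hsub : (E.filter (fun x => f x = (a, b, c))).image (fun p => (p.1, p.2.2, p.1 - p.2.1 + p.2.2)) ⊆
        (({(a : ℤ), -(a : ℤ)} : Finset ℤ) ×ˢ (({(b : ℤ), -(b : ℤ)} : Finset ℤ) ×ˢ
          ({(c : ℤ), -(c : ℤ)} : Finset ℤ))) := by
      intro t ht
      rw [Finset.mem_image] at ht
      obtain ⟨p, hp, rfl⟩ := ht
      rw [Finset.mem_filter] at hp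
      have h2 := hp.2
      simp only [hf, Prod.mk.injEq] at h2
      rw [Finset.mem_product, Finset.mem_product, Finset.mem_insert, Finset.mem_singleton, Finset.mem_insert,
        Finset.mem_singleton, Finset.mem_insert, Finset.mem_singleton]
      refine ⟨?_, ?_, ?_⟩
      · dsimp only
        omega
      · dsimp only
        omega
      · dsimp only
        omega
    have hinj : Set.InjOn (fun p : ℤ × ℤ × ℤ => (p.1, p.2.2, p.1 - p.2.1 + p.2.2))
        ((E.filter (fun x => f x = (a, b, c)) : Finset (ℤ × ℤ × ℤ)) : Set (ℤ × ℤ × ℤ)) := by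
      rintro ⟨p1, p2, p3⟩ _ ⟨q1, q2, q3⟩ _ hpq
      simp only [Prod.mk.injEq] at hpq ⊢
      omega
    rw [← Finset.card_image_of_injOn hinj]
    refine (Finset.card_le_card hsub).trans ?_
    rw [Finset.card_product, Finset.card_product]
    calc _ ≤ 2 * (2 * 2) := Nat.mul_le_mul Finset.card_le_two (Nat.mul_le_mul Finset.card_le_two Finset.card_le_two)
      _ = 8 := rfl
  have hexp : (0 : ℝ) < Real.exp X := Real.exp_pos X
  have hX27 : Real.log (27 * Real.exp X) ≤ X + 27 := by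
    rw [Real.log_mul (by norm_num) hexp.ne', Real.log_exp]
    have := Real.log_le_sub_one_of_pos (show (0 : ℝ) < 27 by norm_num)
    linarith
  have h2 := h (X + 27) W (E.image f) (by linarith) ?_
  · have h3 : (E.card : ℝ) ≤ 8 * ((E.image f).card : ℝ) := by exact_mod_cast h1
    have h4 : (X + 27 + 1) ^ θ ≤ 28 ^ θ * (X + 1) ^ θ := by
      rw [← Real.mul_rpow (by norm_num) (by linarith)]
      apply Real.rpow_le_rpow (by linarith) (by linarith) (by linarith)
    have h5 : (1 : ℝ) ≤ (X + 1) ^ θ := Real.one_le_rpow (by linarith) (by linarith)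
    have h8 : 0 < Real.log 8 := Real.log_pos (by norm_num)
    calc (E.card : ℝ) ≤ 8 * Real.exp (W + C * (X + 27 + 1) ^ θ) := h3.trans (mul_le_mul_of_nonneg_left h2 (by norm_num))
      _ = Real.exp (Real.log 8 + (W + C * (X + 27 + 1) ^ θ)) := by
          rw [Real.exp_add (Real.log 8), Real.exp_log (by norm_num)]
      _ ≤ _ := by
          apply Real.exp_le_exp.2
          have h6 := mul_le_mul_of_nonneg_left h4 hC.le
          nlinarith
  · intro q hq
    rw [Finset.mem_image] at hq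
    obtain ⟨p, hp, rfl⟩ := hq
    obtain ⟨k1, k2, k3, k4, k5, k6, k7⟩ := hE p hp
    have hr1 : (0 : ℝ) < rad p.1 := by exact_mod_cast rd_pos p.1.natAbs
    have hr2 : (0 : ℝ) < rad p.2.2 := by exact_mod_cast rd_pos p.2.2.natAbs
    have hr3 : (0 : ℝ) < rad (p.1 - p.2.1 + p.2.2) := by exact_mod_cast rd_pos (p.1 - p.2.1 + p.2.2).natAbs
    have n1 : ((f p).1 : ℝ) = |(p.1 : ℝ)| := by
      simp only [hf]
      rw [Nat.cast_natAbs, Int.cast_abs]
    have n2 : ((f p).2.1 : ℝ) = |(p.2.2 : ℝ)| := by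
      simp only [hf]
      rw [Nat.cast_natAbs, Int.cast_abs]
    have n3 : ((f p).2.2 : ℝ) = |((p.1 - p.2.1 + p.2.2 : ℤ) : ℝ)| := by
      simp only [hf]
      rw [Nat.cast_natAbs, Int.cast_abs]
    have k8 : |((p.1 - p.2.1 + p.2.2 : ℤ) : ℝ)| ≤ 27 * Real.exp X := by
      push_cast
      rw [abs_le] at k4 k5 k6 ⊢
      constructor <;> linarith [k4.1, k4.2, k5.1, k5.2, k6.1, k6.2]
    refine ⟨⟨Int.natAbs_ne_zero.2 k1, Int.natAbs_ne_zero.2 k2, Int.natAbs_ne_zero.2 k3⟩, ?_, ?_, ?_, ?_⟩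
    · have e1 : rd (f p).1 = rad p.1 := rfl
      have e2 : rd (f p).2.1 = rad p.2.2 := rfl
      have e3 : rd (f p).2.2 = rad (p.1 - p.2.1 + p.2.2) := rfl
      rw [e1, e2, e3, ← Real.log_mul hr1.ne' hr2.ne', ← Real.log_mul (mul_pos hr1 hr2).ne' hr3.ne',
        ← Real.log_exp W]
      exact Real.log_le_log (mul_pos (mul_pos hr1 hr2) hr3) k7
    · rw [n1]
      refine (Real.log_le_log (abs_pos.2 (by exact_mod_cast k1)) ?_).trans hX27
      linarith
    · rw [n2]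
      refine (Real.log_le_log (abs_pos.2 (by exact_mod_cast k2)) ?_).trans hX27
      linarith
    · rw [n3]
      exact (Real.log_le_log (abs_pos.2 (by exact_mod_cast k3)) k8).trans hX27

/-- points of degree two with small radical -/
theorem pts_card {θ : ℝ} (hθ : 1 / 2 < θ) : ∃ C : ℝ, 0 < C ∧
    ∀ (X W : ℝ) (E : Finset (AlgebraicClosure ℚ)), 0 ≤ X →
      (∀ x ∈ E, ∃ (K : IntermediateField ℚ (AlgebraicClosure ℚ)) (_ : NumberField K) (t : K),
        (t : AlgebraicClosure ℚ) = x ∧ Module.finrank ℚ K = 2 ∧ Pt t ∧ ht t ≤ X ∧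
          ∃ P : Fin 3 → Idl K, IsP ∅ t P ∧ rl (P 0) + rl (P 1) + rl (P 2) ≤ W) →
      (E.card : ℝ) ≤ Real.exp (W + C * (X + 1) ^ θ) := by
  classical
  obtain ⟨C, hC, hcount⟩ := int_card hθ
  refine ⟨C + Real.log 2, by positivity, ?_⟩
  intro X W E hX hE
  have hex : ∀ x : AlgebraicClosure ℚ, ∃ p : ℤ × ℤ × ℤ, x ∈ E → (p.1 ≠ 0 ∧ p.2.2 ≠ 0 ∧
      p.1 - p.2.1 + p.2.2 ≠ 0 ∧
      |(p.1 : ℝ)| ≤ 9 * Real.exp X ∧ |(p.2.1 : ℝ)| ≤ 9 * Real.exp X ∧
      |(p.2.2 : ℝ)| ≤ 9 * Real.exp X ∧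
      (rad p.1 : ℝ) * rad p.2.2 * rad (p.1 - p.2.1 + p.2.2) ≤ Real.exp W) ∧
      (p.1 : AlgebraicClosure ℚ) * x ^ 2 + p.2.1 * x + p.2.2 = 0 := by
    intro x
    by_cases hx : x ∈ E
    · obtain ⟨K, hnf, t, htx, hK, hPt, hht, P, hP, hrl⟩ := hE x hx
      obtain ⟨A, B, D, h1, h2, h22, h3, h4, h5, h6, h66⟩ := quad_rad hK hPt hP
      have he : 9 * Real.exp (ht t) ≤ 9 * Real.exp X :=
        mul_le_mul_of_nonneg_left (Real.exp_le_exp.2 hht) (by norm_num)
      refine ⟨(A, B, D), fun _ => ⟨⟨h1, h2, h22, h3.trans he, h4.trans he, h5.trans he,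
        h66.trans (Real.exp_le_exp.2 hrl)⟩, ?_⟩⟩
      rw [← htx]
      have := congrArg (algebraMap K (AlgebraicClosure ℚ)) h6
      simpa using this
    · exact ⟨(0, 0, 0), fun h => absurd h hx⟩
  choose Φ hΦ using hex
  have hfib : ∀ b ∈ E.image Φ, (E.filter fun x => Φ x = b).card ≤ 2 := by
    intro b hb
    obtain ⟨x0, hx0, rfl⟩ := Finset.mem_image.1 hb
    set f : Polynomial (AlgebraicClosure ℚ) :=
      Polynomial.C ((Φ x0).1 : AlgebraicClosure ℚ) * Polynomial.X ^ 2 +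
      Polynomial.C ((Φ x0).2.1 : AlgebraicClosure ℚ) * Polynomial.X +
      Polynomial.C ((Φ x0).2.2 : AlgebraicClosure ℚ) with hf
    have ha : ((Φ x0).1 : AlgebraicClosure ℚ) ≠ 0 := by
      exact_mod_cast (hΦ x0 hx0).1.1
    have hdeg : f.natDegree = 2 := Polynomial.natDegree_quadratic ha
    have hf0 : f ≠ 0 := by
      intro h
      rw [h] at hdeg
      simp at hdeg
    have hsub : (E.filter fun x => Φ x = Φ x0) ⊆ f.roots.toFinset := by
      intro x hx
      obtain ⟨hxE, hxx⟩ := Finset.mem_filter.1 hx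
      rw [Multiset.mem_toFinset, Polynomial.mem_roots hf0, Polynomial.IsRoot, hf]
      have := (hΦ x hxE).2
      rw [hxx] at this
      simpa using this
    refine (Finset.card_le_card hsub).trans ((Multiset.toFinset_card_le _).trans ?_)
    rw [← hdeg]
    exact Polynomial.card_roots' _
  have h1 := Finset.card_le_mul_card_image E 2 hfib
  have h2 := hcount X W (E.image Φ) hX (by
    intro p hp
    obtain ⟨x, hx, rfl⟩ := Finset.mem_image.1 hp
    exact (hΦ x hx).1)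
  have h3 : (E.card : ℝ) ≤ 2 * ((E.image Φ).card : ℝ) := by exact_mod_cast h1
  have h5 : (1 : ℝ) ≤ (X + 1) ^ θ := Real.one_le_rpow (by linarith) (by linarith)
  have h8 : 0 < Real.log 2 := Real.log_pos (by norm_num)
  calc (E.card : ℝ) ≤ 2 * Real.exp (W + C * (X + 1) ^ θ) := h3.trans (mul_le_mul_of_nonneg_left h2 (by norm_num))
    _ = Real.exp (Real.log 2 + (W + C * (X + 1) ^ θ)) := by
        rw [Real.exp_add (Real.log 2), Real.exp_log (by norm_num)]
    _ ≤ _ := by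
        apply Real.exp_le_exp.2
        nlinarith

/-- the points of degree two with bounded height and conductor -/
def InLow (T W : ℝ) (x : AlgebraicClosure ℚ) : Prop :=
  ∃ (K : IntermediateField ℚ (AlgebraicClosure ℚ)) (_ : NumberField K) (t : K),
    (t : AlgebraicClosure ℚ) = x ∧ Module.finrank ℚ K = 2 ∧ (∀ q : ℚ, t ≠ algebraMap ℚ K q) ∧
      W222.UABC.height ![t, 1 - t, -1] ≤ T ∧ conductor ![t, 1 - t, -1] ≤ W

theorem low_card {θ : ℝ} (hθ : 1 / 2 < θ) : ∃ C : ℝ, 0 < C ∧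
    ∀ (T W : ℝ) (E : Finset (AlgebraicClosure ℚ)), 0 ≤ T → (∀ x ∈ E, InLow T W x) →
      (E.card : ℝ) ≤ Real.exp (2 * W + C * (T + 1) ^ θ) := by
  classical
  obtain ⟨C, hC, h⟩ := pts_card hθ
  refine ⟨C * 2 ^ θ, by positivity, ?_⟩
  intro T W E hT hE
  have hne1 : ∀ x ∈ E, x ≠ 1 := by
    intro x hx h1
    obtain ⟨K, _, t, htx, _, hirr, _⟩ := hE x hx
    apply hirr 1
    rw [map_one]
    apply Subtype.ext
    rw [htx, h1]
    rfl
  have h1 := h (2 * T) (2 * W) (E.image fun x => x / (1 - x)) (by linarith) ?_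
  · rw [Finset.card_image_of_injOn (inj_frac E hne1)] at h1
    refine h1.trans (Real.exp_le_exp.2 ?_)
    have h4 : (2 * T + 1) ^ θ ≤ 2 ^ θ * (T + 1) ^ θ := by
      rw [← Real.mul_rpow (by norm_num) (by linarith)]
      apply Real.rpow_le_rpow (by linarith) (by linarith) (by linarith)
    have := mul_le_mul_of_nonneg_left h4 hC.le
    linarith
  · intro y hy
    rw [Finset.mem_image] at hy
    obtain ⟨x, hx, rfl⟩ := hy
    obtain ⟨K, hnf, t, htx, hK, hirr, hh, hc⟩ := hE x hx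
    have ht0 : t ≠ 0 := fun h0 => hirr 0 (by rw [h0, map_zero])
    have ht1 : t ≠ 1 := fun h0 => hirr 1 (by rw [h0, map_one])
    obtain ⟨hPt, hht, P, hP, hR⟩ := R365.QP.point_of ht0 ht1
    rw [hK] at hht hR
    push_cast at hht hR
    refine ⟨K, hnf, t / (1 - t), ?_, hK, hPt, by linarith, P, hP, by linarith⟩
    push_cast
    rw [htx]

end Pool.Agent.H46QF
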