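import Pool.Agent.W222.UABC.Tri

/-!
Counting triples of natural numbers with small radicals: explicit dependence on the size of the numbers.
-/

set_option autoImplicit false

namespace Pool.Agent.H46QF

open Finset Pool.Agent.W222.UABC

/-- sums of powers -/
lemma sum_rpow {s : ℝ} (hs : 0 < s) (N : ℕ) :
    ∑ v ∈ Ico 2 (N + 2), (v : ℝ) ^ (-(1 + s)) ≤ (1 - ((N : ℝ) + 1) ^ (-s)) / s := by
  induction N with
  | zero => simp
  | succ n ih =>
    rw [sum_Ico_succ_top (by omega)]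
    have h0 : (0 : ℝ) < (n : ℝ) + 1 := by positivity
    have h1 : (0 : ℝ) < (n : ℝ) + 2 := by positivity
    have key : ((n : ℝ) + 2) ^ (-(1 + s)) * s ≤ ((n : ℝ) + 1) ^ (-s) - ((n : ℝ) + 2) ^ (-s) := by
      have e1 : ((n : ℝ) + 2) ^ (-(1 + s)) = ((n : ℝ) + 2) ^ (-s) * (1 / ((n : ℝ) + 2)) := by
        rw [show -(1 + s) = -s + -1 by ring, Real.rpow_add h1, Real.rpow_neg_one, one_div]
      have e2 : ((n : ℝ) + 1) ^ (-s) = ((n : ℝ) + 2) ^ (-s) * Real.exp (s * Real.log (((n : ℝ) + 2) / ((n : ℝ) + 1))) := by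
        rw [Real.rpow_def_of_pos h0, Real.rpow_def_of_pos h1, ← Real.exp_add, Real.log_div h1.ne' h0.ne']
        congr 1
        ring
      have e3 : 1 / ((n : ℝ) + 2) ≤ Real.log (((n : ℝ) + 2) / ((n : ℝ) + 1)) := by
        have h2 := Real.one_sub_inv_le_log_of_pos (div_pos h1 h0)
        refine le_trans (le_of_eq ?_) h2
        field_simp
        ring
      have e4 := Real.add_one_le_exp (s * Real.log (((n : ℝ) + 2) / ((n : ℝ) + 1)))
      have e5 : s * (1 / ((n : ℝ) + 2)) ≤ s * Real.log (((n : ℝ) + 2) / ((n : ℝ) + 1)) :=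
        mul_le_mul_of_nonneg_left e3 hs.le
      have e6 : (0 : ℝ) ≤ ((n : ℝ) + 2) ^ (-s) := by positivity
      rw [e1, e2]
      nlinarith
    have h2 : (((n + 2 : ℕ) : ℝ)) = (n : ℝ) + 2 := by push_cast; ring
    have h3 : (((n + 1 : ℕ) : ℝ) + 1) = (n : ℝ) + 2 := by push_cast; ring
    rw [h2, h3]
    rw [le_div_iff₀ hs] at ih ⊢
    linarith

lemma sum_rpow_le {s : ℝ} (hs : 0 < s) (V : Finset ℕ) (hV : ∀ v ∈ V, 2 ≤ v) :
    ∑ v ∈ V, (v : ℝ) ^ (-(1 + s)) ≤ 1 / s := by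
  obtain ⟨N, hN⟩ : ∃ N : ℕ, V ⊆ Ico 2 (N + 2) := by
    refine ⟨V.sup id, fun v hv => ?_⟩
    rw [mem_Ico]
    have := Finset.le_sup (f := id) hv
    simp only [id_eq] at this
    exact ⟨hV v hv, by omega⟩
  calc ∑ v ∈ V, (v : ℝ) ^ (-(1 + s)) ≤ ∑ v ∈ Ico 2 (N + 2), (v : ℝ) ^ (-(1 + s)) :=
        sum_le_sum_of_subset_of_nonneg hN fun _ _ _ => by positivity
    _ ≤ (1 - ((N : ℝ) + 1) ^ (-s)) / s := sum_rpow hs N
    _ ≤ 1 / s := by
        apply div_le_div_of_nonneg_right _ hs.le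
        have : (0 : ℝ) ≤ ((N : ℝ) + 1) ^ (-s) := by positivity
        linarith

/-- the sum of the weights -/
lemma gw_sum_le {β : ℝ} (hβ : 0 < β) (hβ1 : β ≤ 1) : ∃ K : ℝ, 0 < K ∧ ∀ η : ℝ, 0 < η → ∀ s : Finset (ℕ × ℕ),
    ∑ u ∈ s, gw η u ≤ K * η ^ (-(1 + β)) := by
  classical
  have hsum : Summable (fun m : ℕ => (m : ℝ) ^ (-(1 + β))) := Real.summable_nat_rpow.2 (by linarith)
  have hlog : 0 < Real.log 2 := Real.log_pos (by norm_num)
  obtain ⟨S, hS⟩ : ∃ S : ℝ, S = ∑' m : ℕ, (m : ℝ) ^ (-(1 + β)) := ⟨_, rfl⟩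
  have hS0 : 0 ≤ S := by rw [hS]; exact tsum_nonneg fun m => by positivity
  refine ⟨2 * (Real.log 2 / 2) ^ (-β) * S + 1, by positivity, fun η hη s => ?_⟩
  obtain ⟨M, hM⟩ : ∃ M : Finset ℕ, M = (s.image Prod.snd).filter (fun m => 1 ≤ m) := ⟨_, rfl⟩
  obtain ⟨V, hV⟩ : ∃ V : Finset ℕ, V = (s.image Prod.fst).filter (fun v => 2 ≤ v) := ⟨_, rfl⟩
  obtain ⟨g, hg⟩ : ∃ g : ℕ × ℕ → ℝ, g = fun u =>
      (u.1 : ℝ) ^ (-(1 + η * u.2 / 2)) * (η * u.2 / 2 * Real.log 2) ^ (-β) := ⟨_, rfl⟩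
  have h1 : ∑ u ∈ s, gw η u ≤ ∑ u ∈ V ×ˢ M, g u := by
    have h2 : ∑ u ∈ s, gw η u = ∑ u ∈ s.filter (fun u => 2 ≤ u.1 ∧ 1 ≤ u.2), gw η u := by
      symm
      apply sum_subset (filter_subset _ _)
      intro u hu hu'
      rw [mem_filter] at hu'
      unfold gw
      rw [if_pos]
      by_contra hcon
      push Not at hcon
      exact hu' ⟨hu, hcon.1, Nat.one_le_iff_ne_zero.2 hcon.2⟩
    rw [h2]
    calc ∑ u ∈ s.filter (fun u => 2 ≤ u.1 ∧ 1 ≤ u.2), gw η u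
        ≤ ∑ u ∈ s.filter (fun u => 2 ≤ u.1 ∧ 1 ≤ u.2), g u := by
          apply sum_le_sum
          intro u hu
          rw [mem_filter] at hu
          obtain ⟨_, hu1, hu2⟩ := hu
          have h3 : (2 : ℝ) ≤ u.1 := by exact_mod_cast hu1
          have h4 : (1 : ℝ) ≤ u.2 := by exact_mod_cast hu2
          have hz : 0 < η * u.2 / 2 * Real.log 2 := by positivity
          rw [hg]
          unfold gw
          rw [if_neg (by omega)]
          beta_reduce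
          have h5 : (0 : ℝ) < u.1 := by linarith
          have h6 : Real.exp (-((1 + η * u.2) * Real.log u.1)) =
              (u.1 : ℝ) ^ (-(1 + η * u.2 / 2)) * Real.exp (-(η * u.2 / 2 * Real.log u.1)) := by
            rw [Real.rpow_def_of_pos h5, ← Real.exp_add]
            congr 1
            ring
          rw [h6]
          apply mul_le_mul_of_nonneg_left _ (by positivity)
          have h7 : Real.exp (-(η * u.2 / 2 * Real.log u.1)) ≤ Real.exp (-(η * u.2 / 2 * Real.log 2)) := by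
            apply Real.exp_le_exp.2
            have : η * u.2 / 2 * Real.log 2 ≤ η * u.2 / 2 * Real.log u.1 :=
              mul_le_mul_of_nonneg_left (Real.log_le_log (by norm_num) h3) (by positivity)
            linarith
          refine h7.trans ?_
          obtain ⟨z, hzd⟩ : ∃ z : ℝ, z = η * u.2 / 2 * Real.log 2 := ⟨_, rfl⟩
          rw [← hzd] at hz ⊢
          rw [Real.exp_neg, Real.rpow_neg hz.le]
          apply inv_anti₀ (by positivity)
          rcases le_or_gt z 1 with hz1 | hz1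
          · exact (Real.rpow_le_one hz.le hz1 hβ.le).trans (Real.one_le_exp hz.le)
          · calc z ^ β ≤ z ^ (1 : ℝ) := Real.rpow_le_rpow_of_exponent_le hz1.le hβ1
              _ = z := Real.rpow_one z
              _ ≤ Real.exp z := by linarith [Real.add_one_le_exp z]
      _ ≤ ∑ u ∈ V ×ˢ M, g u := by
          apply sum_le_sum_of_subset_of_nonneg
          · intro u hu
            rw [mem_filter] at hu
            rw [mem_product, hV, hM, mem_filter, mem_filter]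
            exact ⟨⟨mem_image_of_mem _ hu.1, hu.2.1⟩, mem_image_of_mem _ hu.1, hu.2.2⟩
          · intro u _ _
            rw [hg]
            positivity
  refine h1.trans ?_
  rw [sum_product_right]
  have h8 : ∀ m ∈ M, ∑ v ∈ V, g (v, m) ≤ 2 * (Real.log 2 / 2) ^ (-β) * η ^ (-(1 + β)) * (m : ℝ) ^ (-(1 + β)) := by
    intro m hm
    rw [hM, mem_filter] at hm
    have hm1 : (1 : ℝ) ≤ m := by exact_mod_cast hm.2
    have hm0 : (0 : ℝ) < m := by linarith
    rw [hg]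
    show ∑ v ∈ V, (v : ℝ) ^ (-(1 + η * m / 2)) * (η * m / 2 * Real.log 2) ^ (-β) ≤ _
    rw [← sum_mul]
    have h9 := sum_rpow_le (s := η * m / 2) (by positivity) V (fun v hv => by rw [hV, mem_filter] at hv; exact hv.2)
    have h10 : (0 : ℝ) ≤ (η * m / 2 * Real.log 2) ^ (-β) := by positivity
    refine (mul_le_mul_of_nonneg_right h9 h10).trans (le_of_eq ?_)
    have e1 : η * m / 2 * Real.log 2 = (Real.log 2 / 2) * (η * m) := by ring
    rw [e1, Real.mul_rpow (by positivity) (by positivity), Real.mul_rpow hη.le hm0.le,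
      show -(1 + β) = -β + -1 by ring, Real.rpow_add hη, Real.rpow_add hm0, Real.rpow_neg_one, Real.rpow_neg_one]
    field_simp
  calc ∑ m ∈ M, ∑ v ∈ V, g (v, m) ≤ ∑ m ∈ M, 2 * (Real.log 2 / 2) ^ (-β) * η ^ (-(1 + β)) * (m : ℝ) ^ (-(1 + β)) :=
        sum_le_sum h8
    _ = 2 * (Real.log 2 / 2) ^ (-β) * η ^ (-(1 + β)) * ∑ m ∈ M, (m : ℝ) ^ (-(1 + β)) := by rw [mul_sum]
    _ ≤ 2 * (Real.log 2 / 2) ^ (-β) * η ^ (-(1 + β)) * S := by
        apply mul_le_mul_of_nonneg_left _ (by positivity)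
        rw [hS]
        exact hsum.sum_le_tsum _ fun m _ => by positivity
    _ ≤ (2 * (Real.log 2 / 2) ^ (-β) * S + 1) * η ^ (-(1 + β)) := by
        have : (0 : ℝ) ≤ η ^ (-(1 + β)) := by positivity
        nlinarith

/-- the sum over the integers -/
lemma sum_gw_le {β : ℝ} (hβ : 0 < β) (hβ1 : β ≤ 1) : ∃ K : ℝ, 0 < K ∧ ∀ η : ℝ, 0 < η → ∀ E : Finset ℕ,
    (∀ m ∈ E, m ≠ 0) →
    ∑ m ∈ E, Real.exp (-(Real.log (rd m)) - η * Real.log m) ≤ Real.exp (K * η ^ (-(1 + β))) := by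
  classical
  obtain ⟨K, hK, hF⟩ := gw_sum_le hβ hβ1
  refine ⟨K, hK, fun η hη E hE => ?_⟩
  have hinj : Set.InjOn (fun m : ℕ => m.factorization) (E : Set ℕ) := by
    intro a ha b hb hab
    exact Nat.factorization_inj (hE a ha) (hE b hb) hab
  have h1 := rankin_gen (gw η) (gw_nonneg η) _ (hF η hη) (E.image fun m : ℕ => m.factorization)
  rw [Finset.sum_image hinj] at h1
  refine le_trans (le_of_eq ?_) h1
  exact Finset.sum_congr rfl fun m hm => (gw_prod η m (hE m hm)).symm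

/-- triples of natural numbers with small radicals are few -/
theorem tri_card2 {θ : ℝ} (hθ : 1 / 2 < θ) : ∃ C : ℝ, 0 < C ∧
    ∀ (X Y : ℝ) (Q : Finset (ℕ × ℕ × ℕ)), 0 ≤ X →
      (∀ t ∈ Q, (t.1 ≠ 0 ∧ t.2.1 ≠ 0 ∧ t.2.2 ≠ 0) ∧
        Real.log (rd t.1) + Real.log (rd t.2.1) + Real.log (rd t.2.2) ≤ Y ∧
        Real.log t.1 ≤ X ∧ Real.log t.2.1 ≤ X ∧ Real.log t.2.2 ≤ X) →
      (Q.card : ℝ) ≤ Real.exp (Y + C * (X + 1) ^ θ) := by
  classical
  obtain ⟨β, hβ0, hβ1, hβθ⟩ : ∃ β : ℝ, 0 < β ∧ β ≤ 1 ∧ (1 + β) / 2 ≤ θ := by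
    refine ⟨min (2 * θ - 1) 1, lt_min (by linarith) one_pos, min_le_right _ _, ?_⟩
    have := min_le_left (2 * θ - 1) 1
    linarith
  obtain ⟨K, hK, hE⟩ := sum_gw_le hβ0 hβ1
  refine ⟨3 * K + 3, by positivity, ?_⟩
  intro X Y Q hX hQ
  obtain ⟨η, hη⟩ : ∃ η : ℝ, η = (X + 1) ^ (-(1 / 2) : ℝ) := ⟨_, rfl⟩
  have hX1 : 1 ≤ X + 1 := by linarith
  have hX0 : 0 < X + 1 := by linarith
  have hη0 : 0 < η := by rw [hη]; positivity
  set w : ℕ → ℝ := fun m => Real.exp (-(Real.log (rd m)) - η * Real.log m) with hw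
  have hw0 : ∀ a, 0 ≤ w a := fun a => (Real.exp_pos _).le
  have h1 : (Q.card : ℝ) ≤ ∑ t ∈ Q, Real.exp (Y + 3 * η * X) * (w t.1 * (w t.2.1 * w t.2.2)) := by
    have h3 : (Q.card : ℝ) = ∑ t ∈ Q, (1 : ℝ) := by simp
    rw [h3]
    refine Finset.sum_le_sum fun t ht => ?_
    obtain ⟨-, h4, h5, h6, h7⟩ := hQ t ht
    rw [hw]
    simp only
    rw [← Real.exp_add, ← Real.exp_add, ← Real.exp_add]
    apply Real.one_le_exp
    have h8 := mul_le_mul_of_nonneg_left h5 hη0.le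
    have h9 := mul_le_mul_of_nonneg_left h6 hη0.le
    have h10 := mul_le_mul_of_nonneg_left h7 hη0.le
    linarith
  have h2 : ∑ t ∈ Q, w t.1 * (w t.2.1 * w t.2.2) ≤ Real.exp (3 * (K * η ^ (-(1 + β)))) := by
    set Q1 := Q.image fun t => t.1 with hQ1
    set Q2 := Q.image fun t => t.2.1 with hQ2
    set Q3 := Q.image fun t => t.2.2 with hQ3
    have hn1 : ∀ m ∈ Q1, m ≠ 0 := by
      intro m hm
      obtain ⟨t, ht, rfl⟩ := Finset.mem_image.1 hm
      exact (hQ t ht).1.1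
    have hn2 : ∀ m ∈ Q2, m ≠ 0 := by
      intro m hm
      obtain ⟨t, ht, rfl⟩ := Finset.mem_image.1 hm
      exact (hQ t ht).1.2.1
    have hn3 : ∀ m ∈ Q3, m ≠ 0 := by
      intro m hm
      obtain ⟨t, ht, rfl⟩ := Finset.mem_image.1 hm
      exact (hQ t ht).1.2.2
    obtain ⟨D, hD⟩ : ∃ D : ℝ, D = Real.exp (K * η ^ (-(1 + β))) := ⟨_, rfl⟩
    have hD0 : 0 ≤ D := by rw [hD]; exact (Real.exp_pos _).le
    have hE' : ∀ E : Finset ℕ, (∀ m ∈ E, m ≠ 0) → ∑ m ∈ E, w m ≤ D := by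
      intro E hE2
      rw [hD]
      exact hE η hη0 E hE2
    calc ∑ t ∈ Q, w t.1 * (w t.2.1 * w t.2.2)
        ≤ ∑ t ∈ Q1 ×ˢ (Q2 ×ˢ Q3), w t.1 * (w t.2.1 * w t.2.2) := by
          refine Finset.sum_le_sum_of_subset_of_nonneg ?_
            (fun t _ _ => mul_nonneg (hw0 _) (mul_nonneg (hw0 _) (hw0 _)))
          intro t ht
          exact Finset.mem_product.2 ⟨Finset.mem_image_of_mem _ ht,
            Finset.mem_product.2 ⟨Finset.mem_image_of_mem (fun t : ℕ × ℕ × ℕ => t.2.1) ht,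
              Finset.mem_image_of_mem (fun t : ℕ × ℕ × ℕ => t.2.2) ht⟩⟩
      _ = (∑ a ∈ Q1, w a) * ((∑ b ∈ Q2, w b) * ∑ c ∈ Q3, w c) := by
          have e : (∑ b ∈ Q2, w b) * ∑ c ∈ Q3, w c = ∑ p ∈ Q2 ×ˢ Q3, w p.1 * w p.2 := by
            rw [Finset.sum_mul_sum, Finset.sum_product]
          rw [e, Finset.sum_mul_sum, Finset.sum_product]
      _ ≤ D * (D * D) := by
          refine mul_le_mul (hE' _ hn1) (mul_le_mul (hE' _ hn2) (hE' _ hn3)
            (Finset.sum_nonneg fun b _ => hw0 b) hD0) (mul_nonneg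
              (Finset.sum_nonneg fun b _ => hw0 b) (Finset.sum_nonneg fun b _ => hw0 b)) hD0
      _ = Real.exp (3 * (K * η ^ (-(1 + β)))) := by
          rw [hD, ← Real.exp_add, ← Real.exp_add]
          congr 1
          ring
  have e1 : η ^ (-(1 + β)) ≤ (X + 1) ^ θ := by
    rw [hη, ← Real.rpow_mul hX0.le]
    apply Real.rpow_le_rpow_of_exponent_le hX1
    linarith
  have e2 : η * X ≤ (X + 1) ^ θ := by
    calc η * X ≤ η * (X + 1) := mul_le_mul_of_nonneg_left (by linarith) hη0.le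
      _ = (X + 1) ^ (1 / 2 : ℝ) := by
          rw [hη]
          nth_rewrite 2 [← Real.rpow_one (X + 1)]
          rw [← Real.rpow_add hX0]
          norm_num
      _ ≤ (X + 1) ^ θ := Real.rpow_le_rpow_of_exponent_le hX1 hθ.le
  calc (Q.card : ℝ) ≤ ∑ t ∈ Q, Real.exp (Y + 3 * η * X) * (w t.1 * (w t.2.1 * w t.2.2)) := h1
    _ = Real.exp (Y + 3 * η * X) * ∑ t ∈ Q, w t.1 * (w t.2.1 * w t.2.2) := by rw [mul_sum]
    _ ≤ Real.exp (Y + 3 * η * X) * Real.exp (3 * (K * η ^ (-(1 + β)))) :=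
        mul_le_mul_of_nonneg_left h2 (Real.exp_pos _).le
    _ = Real.exp (Y + 3 * η * X + 3 * (K * η ^ (-(1 + β)))) := by rw [Real.exp_add (Y + 3 * η * X)]
    _ ≤ Real.exp (Y + (3 * K + 3) * (X + 1) ^ θ) := by
        apply Real.exp_le_exp.2
        have := mul_le_mul_of_nonneg_left e1 hK.le
        nlinarith

end Pool.Agent.H46QF
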